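import Pool.Agent.Lib_helper71.RP.Rank

/-! Injectivity of the coordinates on the good region. -/

namespace Pool.Agent.Lib_helper91.RP

open Pool.Agent.Lib_helper71.RP
open MeasureTheory Set
open scoped ContDiff ENNReal

lemma glue_lt {a b : ℝ} (ha : 0 < a) (hab : a < b) : expNegInvGlue a < expNegInvGlue b := by
  have hb : 0 < b := ha.trans hab
  unfold expNegInvGlue
  rw [if_neg (not_le.2 ha), if_neg (not_le.2 hb)]
  apply Real.exp_lt_exp.2
  have : b⁻¹ < a⁻¹ := inv_strictAnti₀ ha hab
  linarith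

lemma stran_lt {a b : ℝ} (ha : 0 < a) (hab : a < b) (hb : b < 1) :
    Real.smoothTransition a < Real.smoothTransition b := by
  unfold Real.smoothTransition
  have h1 : expNegInvGlue a < expNegInvGlue b := glue_lt ha hab
  have h2 : expNegInvGlue (1 - b) < expNegInvGlue (1 - a) := glue_lt (by linarith) (by linarith)
  have pa : 0 < expNegInvGlue a := expNegInvGlue.pos_of_pos ha
  have pb : 0 < expNegInvGlue b := expNegInvGlue.pos_of_pos (by linarith)
  have pa' : 0 < expNegInvGlue (1 - a) := expNegInvGlue.pos_of_pos (by linarith)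
  have pb' : 0 < expNegInvGlue (1 - b) := expNegInvGlue.pos_of_pos (by linarith)
  rw [div_lt_div_iff₀ (by positivity) (by positivity)]
  nlinarith [mul_lt_mul'' h1 h2 pa.le pb'.le]

lemma stran_inj {a b : ℝ} (ha : 0 < a) (ha1 : a < 1) (hb : 0 < b) (hb1 : b < 1)
    (h : Real.smoothTransition a = Real.smoothTransition b) : a = b := by
  rcases lt_trichotomy a b with h1 | h1 | h1
  · exact absurd h (stran_lt ha h1 hb1).ne
  · exact h1
  · exact absurd h (stran_lt hb h1 ha1).ne'

lemma psi_eq_imp {x x' : E6} (hy : |yy x| < 1) (hy' : |yy x'| < 1)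
    (h : psi x ^ 2 = psi x' ^ 2) : yy x ^ 2 = yy x' ^ 2 := by
  have a1 := abs_lt.1 hy
  have a2 := abs_lt.1 hy'
  rcases sq_eq_sq_iff_eq_or_eq_neg.1 h with h1 | h1
  · have : Real.smoothTransition ((yy x + 1) / 2) = Real.smoothTransition ((yy x' + 1) / 2) := by
      rw [psi, psi] at h1; linarith
    have h2 := stran_inj (by linarith) (by linarith) (by linarith) (by linarith) this
    have : yy x = yy x' := by linarith
    rw [this]
  · have h3 : - psi x' = psi (-x') := (psi_neg x').symm
    rw [h3] at h1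
    have : Real.smoothTransition ((yy x + 1) / 2) = Real.smoothTransition ((yy (-x') + 1) / 2) := by
      rw [psi, psi] at h1; linarith
    rw [yy_neg] at this
    have h2 := stran_inj (by linarith) (by linarith) (by linarith) (by linarith) this
    have : yy x = - yy x' := by linarith
    rw [this, neg_sq]

lemma mu_pos' {x : E6} (hy : |yy x| < 1) : 0 < mu x := by
  have a1 := abs_lt.1 hy
  have h1 := Real.smoothTransition.pos_of_pos (x := (yy x + 1) / 2) (by linarith)
  have h2 := Real.smoothTransition.lt_one_of_lt_one (x := (yy x + 1) / 2) (by linarith)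
  rw [mu, psi]
  nlinarith

lemma r_eq_of_tt {x x' : E6} (hx : x ≠ 0) (hx' : x' ≠ 0) (hg : Good x) (hg' : Good x')
    (ht : ∀ j, tt j x = tt j x') : ∀ j, r j x = r j x' := by
  have hmu : mu x = mu x' := by
    rw [← tt_sum hx, ← tt_sum hx']; exact Finset.sum_congr rfl fun j _ => ht j
  have hmp : 0 < mu x := mu_pos' hg.1
  have hs := sh_pos hx
  have hs' := sh_pos hx'
  have h1 : ∀ j, eta (r j x) * sh x' = eta (r j x') * sh x := by
    intro j
    have h := ht j
    rw [tt, tt, ← hmu] at h
    have h2 := mul_left_cancel₀ hmp.ne' h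
    rwa [div_eq_div_iff hs.ne' hs'.ne'] at h2
  have hsum := r_sum3 hx
  have hsum' := r_sum3 hx'
  have hlt : ∀ {u v : E6}, u ≠ 0 → v ≠ 0 → Good u → Good v →
      (∀ j, eta (r j u) * sh v = eta (r j v) * sh u) → sh v < sh u → False := by
    intro u v hu hv gu gv he hlt
    have hj : ∀ j, r j v < r j u := by
      intro j
      by_contra hc
      push Not at hc
      have e1 : eta (r j u) ≤ eta (r j v) := expNegInvGlue.monotone (by linarith)
      have e2 := eta_pos (gu.2 j)
      have e3 := eta_pos (gv.2 j)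
      have e4 := he j
      have e5 := sh_pos hv
      nlinarith
    have s1 := r_sum3 hu
    have s2 := r_sum3 hv
    linarith [hj 0, hj 1, hj 2]
  have hsh : sh x = sh x' := by
    rcases lt_trichotomy (sh x) (sh x') with h | h | h
    · exact (hlt hx' hx hg' hg (fun j => (h1 j).symm) h).elim
    · exact h
    · exact (hlt hx hx' hg hg' h1 h).elim
  intro j
  have h2 := h1 j
  rw [← hsh] at h2
  have h3 := mul_right_cancel₀ hs.ne' h2
  rcases lt_trichotomy (r j x) (r j x') with h | h | h
  · exact absurd h3 (glue_lt (by linarith [hg.2 j]) (by linarith)).ne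
  · exact h
  · exact absurd h3 (glue_lt (by linarith [hg'.2 j]) (by linarith)).ne'

theorem good_inj {x x' : E6} (hx0 : x 0 = 1) (hx0' : x' 0 = 1) (hg : Good x) (hg' : Good x')
    (hτ : (0 ≤ (pr x).im / (pr x).re ∧ 0 ≤ (pr x').im / (pr x').re) ∨
      ((pr x).im / (pr x).re < 0 ∧ (pr x').im / (pr x').re < 0))
    (h1 : (zc 1 x).arg = (zc 1 x').arg) (h2 : (zc 2 x).arg = (zc 2 x').arg)
    (ht : ∀ j, tt j x = tt j x') : x = x' := by
  have hx : x ≠ 0 := by intro h; rw [h] at hx0; simp at hx0
  have hx' : x' ≠ 0 := by intro h; rw [h] at hx0'; simp at hx0'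
  have hr := r_eq_of_tt hx hx' hg hg' ht
  have hmu : mu x = mu x' := by
    rw [← tt_sum hx, ← tt_sum hx']; exact Finset.sum_congr rfl fun j _ => ht j
  have hyy : yy x ^ 2 = yy x' ^ 2 := by
    apply psi_eq_imp hg.1 hg'.1
    rw [mu, mu] at hmu; linarith
  have hn := nn_pos hx
  have hn' := nn_pos hx'
  have hre : (pr x).re ≠ 0 :=
    re_pr_ne hx (fun k => by linarith [hg.2 k]) (by linarith [hg.1])
  have hre' : (pr x').re ≠ 0 :=
    re_pr_ne hx' (fun k => by linarith [hg'.2 k]) (by linarith [hg'.1])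
  -- the formula for yy^2
  have key : ∀ {u : E6}, u ≠ 0 → (pr u).re ≠ 0 →
      yy u ^ 2 * (1 + ((pr u).im / (pr u).re) ^ 2)
        = 54 ^ 2 * (r 0 u * r 1 u * r 2 u) * ((pr u).im / (pr u).re) ^ 2 := by
    intro u hu hreu
    have k1 := yy_sq hu
    have k2 := normSq_pr hu
    rw [Complex.normSq_apply] at k2
    have hnu := nn_pos hu
    have hre2 : (pr u).re ^ 2 ≠ 0 := pow_ne_zero _ hreu
    have hn3 : nn u ^ 3 ≠ 0 := pow_ne_zero _ hnu.ne'
    rw [div_pow]
    field_simp
    have k3 : yy u ^ 2 * nn u ^ 3 * ((pr u).re ^ 2 + (pr u).im ^ 2)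
        = 54 ^ 2 * (pr u).im ^ 2 * (nn u ^ 3 * (r 0 u * r 1 u * r 2 u)) := by
      rw [k1, ← k2]; ring
    apply mul_left_cancel₀ hn3
    linear_combination k3
  have k := key hx hre
  have k' := key hx' hre'
  set τ := (pr x).im / (pr x).re with hτd
  set τ' := (pr x').im / (pr x').re with hτd'
  have hR : 0 < r 0 x * r 1 x * r 2 x := by
    have := hg.2 0; have := hg.2 1; have := hg.2 2
    positivity
  have hττ : τ ^ 2 = τ' ^ 2 := by
    rw [← hr 0, ← hr 1, ← hr 2, ← hyy] at k'
    set Y := yy x ^ 2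
    set R := r 0 x * r 1 x * r 2 x
    -- Y(1+τ²)=CRτ², Y(1+τ'²)=CRτ'²
    by_contra hne
    have h3 : (Y - 54 ^ 2 * R) * (τ ^ 2 - τ' ^ 2) = 0 := by linear_combination k - k'
    have h4 : Y = 54 ^ 2 * R := by
      rcases mul_eq_zero.1 h3 with h | h
      · linarith
      · exact absurd (by linarith) hne
    rw [h4] at k
    have : (54 : ℝ) ^ 2 * R = 0 := by linear_combination k
    have hpos : (0 : ℝ) < 54 ^ 2 * R := by positivity
    linarith
  have hτeq : τ = τ' := by
    rcases hτ with ⟨ha, hb⟩ | ⟨ha, hb⟩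
    · exact (sq_eq_sq₀ ha hb).1 hττ
    · have := (sq_eq_sq₀ (neg_nonneg.2 ha.le) (neg_nonneg.2 hb.le)).1 (by rw [neg_sq, neg_sq, hττ])
      linarith
  -- scaling
  set s := Real.sqrt (nn x' / nn x) with hs
  have hs0 : 0 < s := Real.sqrt_pos.2 (by positivity)
  have hs2 : s ^ 2 = nn x' / nn x := Real.sq_sqrt (by positivity)
  have hnsq : ∀ j, Complex.normSq ((s : ℂ) * zc j x) = Complex.normSq (zc j x') := by
    intro j
    rw [Complex.normSq_mul, Complex.normSq_ofReal, ← sq, hs2]
    have e1 : Complex.normSq (zc j x) = r j x * nn x := by rw [r]; field_simp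
    have e2 : Complex.normSq (zc j x') = r j x' * nn x' := by rw [r]; field_simp
    rw [e1, e2, hr j]
    field_simp
  have hnorm : ∀ j, ‖(s : ℂ) * zc j x‖ = ‖zc j x'‖ := by
    intro j
    have := hnsq j
    rw [Complex.normSq_eq_norm_sq, Complex.normSq_eq_norm_sq] at this
    exact (sq_eq_sq₀ (norm_nonneg _) (norm_nonneg _)).1 this
  have harg : ∀ j, (zc j x).arg = (zc j x').arg → (s : ℂ) * zc j x = zc j x' := by
    intro j hj
    apply Complex.ext_norm_arg (hnorm j)
    rw [Complex.arg_real_mul _ hs0, hj]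
  have e1 := harg 1 h1
  have e2 := harg 2 h2
  have hz1 : zc 1 x' ≠ 0 := (r_pos_iff hx' 1).1 (by linarith [hg'.2 1])
  have hz2 : zc 2 x' ≠ 0 := (r_pos_iff hx' 2).1 (by linarith [hg'.2 2])
  -- products
  have hpre : ((s ^ 3 * (pr x).re) ^ 2) = (pr x').re ^ 2 := by
    have n1 := normSq_pr hx
    have n2 := normSq_pr hx'
    rw [Complex.normSq_apply] at n1 n2
    have i1 : (pr x).im = τ * (pr x).re := by rw [hτd]; field_simp
    have i2 : (pr x').im = τ * (pr x').re := by rw [hτeq, hτd']; field_simp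
    rw [i1] at n1
    rw [i2, ← hr 0, ← hr 1, ← hr 2] at n2
    have h3 : 0 < 1 + τ ^ 2 := by positivity
    have h4 : s ^ 6 * nn x ^ 3 = nn x' ^ 3 := by
      rw [show s ^ 6 = (s ^ 2) ^ 3 by ring, hs2, div_pow]; field_simp
    apply mul_left_cancel₀ h3.ne'
    linear_combination s ^ 6 * n1 - n2 + (r 0 x * r 1 x * r 2 x) * h4
  have hpr : ((s : ℂ) ^ 3 * pr x = pr x') ∨ ((s : ℂ) ^ 3 * pr x = - pr x') := by
    have i1 : (pr x).im = τ * (pr x).re := by rw [hτd]; field_simp
    have i2 : (pr x').im = τ * (pr x').re := by rw [hτeq, hτd']; field_simp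
    have c1 : (s : ℂ) ^ 3 = ((s ^ 3 : ℝ) : ℂ) := by push_cast; ring
    rcases sq_eq_sq_iff_eq_or_eq_neg.1 hpre with h | h
    · left
      apply Complex.ext
      · rw [c1, Complex.re_ofReal_mul, h]
      · rw [c1, Complex.im_ofReal_mul, i1, i2, ← h]; ring
    · right
      apply Complex.ext
      · rw [c1, Complex.re_ofReal_mul, h, Complex.neg_re]
      · rw [c1, Complex.im_ofReal_mul, i1, Complex.neg_im, i2]
        linear_combination τ * h
  have hfac : (s : ℂ) ^ 3 * pr x = ((s : ℂ) * zc 0 x) * (zc 1 x' * zc 2 x') := by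
    rw [pr, ← e1, ← e2]; ring
  have hz0 : ((s : ℂ) * zc 0 x = zc 0 x') ∨ ((s : ℂ) * zc 0 x = - zc 0 x') := by
    have hne : zc 1 x' * zc 2 x' ≠ 0 := mul_ne_zero hz1 hz2
    rcases hpr with h | h
    · left
      apply mul_right_cancel₀ hne
      rw [← hfac, h, pr]; ring
    · right
      apply mul_right_cancel₀ hne
      rw [← hfac, h, pr]; ring
  have hre0 : (zc 0 x).re = 1 := by rw [zc_re]; exact hx0
  have hre0' : (zc 0 x').re = 1 := by rw [zc_re]; exact hx0'
  have hs1 : s = 1 ∧ (s : ℂ) * zc 0 x = zc 0 x' := by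
    rcases hz0 with h | h
    · refine ⟨?_, h⟩
      have := congrArg Complex.re h
      rw [Complex.re_ofReal_mul, hre0, hre0', mul_one] at this
      exact this
    · exfalso
      have := congrArg Complex.re h
      rw [Complex.re_ofReal_mul, Complex.neg_re, hre0, hre0', mul_one] at this
      linarith
  obtain ⟨hs1, e0⟩ := hs1
  rw [hs1, Complex.ofReal_one, one_mul] at e0 e1 e2
  have hall : ∀ j, zc j x = zc j x' := by
    intro j; fin_cases j
    · exact e0
    · exact e1
    · exact e2
  funext i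
  fin_cases i
  · exact congrArg Complex.re (hall 0)
  · exact congrArg Complex.im (hall 0)
  · exact congrArg Complex.re (hall 1)
  · exact congrArg Complex.im (hall 1)
  · exact congrArg Complex.re (hall 2)
  · exact congrArg Complex.im (hall 2)

end Pool.Agent.Lib_helper91.RP
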