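import Mathlib
import Pool.Agent.Lib_helper71.RP.Defs

/-! Elementary properties of `ip` and `rho` (module T1 of the Finsler `RP^n` project). -/

namespace Pool.Agent.Lib_helper91.RP

open Pool.Agent.Lib_helper71.RP
open MeasureTheory Set
open scoped ContDiff ENNReal

variable {m : ℕ}

lemma ip_comm (x w : Fin m → ℝ) : ip x w = ip w x := by
  unfold ip; exact Finset.sum_congr rfl fun i _ => mul_comm _ _

lemma ip_add_right (x w w' : Fin m → ℝ) : ip x (w + w') = ip x w + ip x w' := by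
  unfold ip; rw [← Finset.sum_add_distrib]
  exact Finset.sum_congr rfl fun i _ => by simp [mul_add]

lemma ip_add_left (x x' w : Fin m → ℝ) : ip (x + x') w = ip x w + ip x' w := by
  rw [ip_comm, ip_add_right, ip_comm w x, ip_comm w x']

lemma ip_smul_right (a : ℝ) (x w : Fin m → ℝ) : ip x (a • w) = a * ip x w := by
  unfold ip; rw [Finset.mul_sum]
  exact Finset.sum_congr rfl fun i _ => by simp only [Pi.smul_apply, smul_eq_mul]; ring

lemma ip_smul_left (a : ℝ) (x w : Fin m → ℝ) : ip (a • x) w = a * ip x w := by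
  rw [ip_comm, ip_smul_right, ip_comm]

lemma ip_self_nonneg (x : Fin m → ℝ) : 0 ≤ ip x x :=
  Finset.sum_nonneg fun _ _ => mul_self_nonneg _

lemma ip_self_pos {x : Fin m → ℝ} (hx : x ≠ 0) : 0 < ip x x := by
  rcases (ip_self_nonneg x).lt_or_eq with h | h
  · exact h
  · exfalso; apply hx; funext i
    have := (Finset.sum_eq_zero_iff_of_nonneg (fun i _ => mul_self_nonneg (x i))).1 h.symm i
      (Finset.mem_univ i)
    simpa using mul_self_eq_zero.1 this

lemma ip_sq_le (x w : Fin m → ℝ) : ip x w ^ 2 ≤ ip x x * ip w w := by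
  have := Finset.sum_mul_sq_le_sq_mul_sq Finset.univ x w
  simpa [ip, sq] using this

/-- gram determinant as a square -/
lemma ip_gram (x w : Fin m → ℝ) :
    ip (ip x x • w - ip x w • x) (ip x x • w - ip x w • x)
      = ip x x * (ip x x * ip w w - ip x w ^ 2) := by
  have e : ip x x • w - ip x w • x = ip x x • w + (-ip x w) • x := by rw [neg_smul, sub_eq_add_neg]
  rw [e]
  simp only [ip_add_left, ip_add_right, ip_smul_left, ip_smul_right]
  rw [ip_comm w x]; ring

lemma sqrt_ip_add_le (u v : Fin m → ℝ) :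
    Real.sqrt (ip (u + v) (u + v)) ≤ Real.sqrt (ip u u) + Real.sqrt (ip v v) := by
  apply Real.sqrt_le_iff.2
  refine ⟨by positivity, ?_⟩
  have h1 : ip u v ≤ Real.sqrt (ip u u) * Real.sqrt (ip v v) := by
    rw [← Real.sqrt_mul (ip_self_nonneg u)]
    exact Real.le_sqrt_of_sq_le (ip_sq_le u v)
  have h2 := Real.sq_sqrt (ip_self_nonneg u)
  have h3 := Real.sq_sqrt (ip_self_nonneg v)
  simp only [ip_add_left, ip_add_right]
  rw [ip_comm v u]
  nlinarith

/-- projection orthogonal to `x` -/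
noncomputable def pr (x w : Fin m → ℝ) : Fin m → ℝ := w - (ip x w / ip x x) • x

lemma pr_add (x w w' : Fin m → ℝ) : pr x (w + w') = pr x w + pr x w' := by
  unfold pr; rw [ip_add_right, add_div, add_smul]; abel

lemma ip_pr {x : Fin m → ℝ} (hx : x ≠ 0) (w : Fin m → ℝ) :
    ip (pr x w) (pr x w) = ip w w - ip x w ^ 2 / ip x x := by
  have h := (ip_self_pos hx).ne'
  have e : pr x w = w + (-(ip x w / ip x x)) • x := by
    unfold pr; rw [neg_smul, sub_eq_add_neg]
  rw [e]
  simp only [ip_add_left, ip_add_right, ip_smul_left, ip_smul_right]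
  rw [ip_comm w x]; field_simp; ring

lemma rho_eq {x : Fin m → ℝ} (hx : x ≠ 0) (w : Fin m → ℝ) :
    rho x w = Real.sqrt (ip (pr x w) (pr x w)) / Real.sqrt (ip x x) := by
  have h := ip_self_pos hx
  have hs : 0 < Real.sqrt (ip x x) := Real.sqrt_pos.2 h
  have hsq : Real.sqrt (ip x x) * Real.sqrt (ip x x) = ip x x := Real.mul_self_sqrt h.le
  have e : ip x x * ip w w - ip x w ^ 2 = ip x x * ip (pr x w) (pr x w) := by
    rw [ip_pr hx]; field_simp
  unfold rho
  rw [e, Real.sqrt_mul h.le]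
  rw [div_eq_div_iff h.ne' hs.ne']
  calc Real.sqrt (ip x x) * Real.sqrt (ip (pr x w) (pr x w)) * Real.sqrt (ip x x)
      = Real.sqrt (ip (pr x w) (pr x w)) * (Real.sqrt (ip x x) * Real.sqrt (ip x x)) := by ring
    _ = _ := by rw [hsq]

lemma rho_nonneg (x w : Fin m → ℝ) : 0 ≤ rho x w :=
  div_nonneg (Real.sqrt_nonneg _) (ip_self_nonneg x)

lemma rho_add_le {x : Fin m → ℝ} (hx : x ≠ 0) (w w' : Fin m → ℝ) :
    rho x (w + w') ≤ rho x w + rho x w' := by
  rw [rho_eq hx, rho_eq hx, rho_eq hx, pr_add, ← add_div]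
  exact div_le_div_of_nonneg_right (sqrt_ip_add_le _ _) (Real.sqrt_nonneg _)

lemma rho_smul (x w : Fin m → ℝ) {s : ℝ} (hs : 0 ≤ s) : rho x (s • w) = s * rho x w := by
  unfold rho
  rw [ip_smul_right, ip_smul_right, ip_smul_left]
  have : ip x x * (s * (s * ip w w)) - (s * ip x w) ^ 2
      = s ^ 2 * (ip x x * ip w w - ip x w ^ 2) := by ring
  rw [this, Real.sqrt_mul (sq_nonneg s), Real.sqrt_sq hs, mul_div_assoc]

lemma rho_inv (x w : Fin m → ℝ) {a : ℝ} (ha : a ≠ 0) (b : ℝ) :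
    rho (a • x) (a • w + b • x) = rho x w := by
  unfold rho
  simp only [ip_add_left, ip_add_right, ip_smul_left, ip_smul_right]
  rw [ip_comm w x]
  have : a * (a * ip x x) * (a * (a * ip w w) + b * (a * ip x w) + (a * (b * ip x w) + b * (b * ip x x)))
        - (a * (a * ip x w) + b * (a * ip x x)) ^ 2
      = (a ^ 2) ^ 2 * (ip x x * ip w w - ip x w ^ 2) := by ring
  have e2 : a * (a * ip x x) * (a * (a * ip w w) + a * (b * ip x w) + (b * (a * ip x w) + b * (b * ip x x)))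
        - (a * (a * ip x w + b * ip x x)) ^ 2
      = (a ^ 2) ^ 2 * (ip x x * ip w w - ip x w ^ 2) := by ring
  first
  | rw [this]
  | rw [e2]
  | (have e3 : ∀ A B : ℝ, A = B → Real.sqrt A = Real.sqrt B := fun A B h => by rw [h]
     rw [e3 _ ((a ^ 2) ^ 2 * (ip x x * ip w w - ip x w ^ 2)) (by ring)])
  rw [Real.sqrt_mul (by positivity), Real.sqrt_sq (by positivity)]
  have ha2 : a ^ 2 ≠ 0 := pow_ne_zero _ ha
  rw [show a * (a * ip x x) = a ^ 2 * ip x x by ring, mul_div_mul_left _ _ ha2]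

lemma gram_pos {x w : Fin m → ℝ} (h : LinearIndependent ℝ ![x, w]) :
    0 < ip x x * ip w w - ip x w ^ 2 := by
  have hx : x ≠ 0 := h.ne_zero 0
  have hp := ip_self_pos hx
  have hne : ip x x • w - ip x w • x ≠ 0 := by
    intro h0
    have h' := LinearIndependent.pair_iff.1 h (-ip x w) (ip x x) (by
      rw [neg_smul]; rw [sub_eq_zero] at h0; rw [h0]; abel)
    exact hp.ne' h'.2
  have h2 := ip_self_pos hne
  rw [ip_gram] at h2
  exact (mul_pos_iff_of_pos_left hp).1 h2

lemma rho_pos {x w : Fin m → ℝ} (h : LinearIndependent ℝ ![x, w]) : 0 < rho x w :=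
  div_pos (Real.sqrt_pos.2 (gram_pos h)) (ip_self_pos (h.ne_zero 0))

lemma contDiff_ip : ContDiff ℝ ∞ (fun p : (Fin m → ℝ) × (Fin m → ℝ) => ip p.1 p.2) := by
  unfold ip
  apply ContDiff.sum
  intro i _
  exact ((contDiff_apply ℝ ℝ i).comp contDiff_fst).mul ((contDiff_apply ℝ ℝ i).comp contDiff_snd)

lemma contDiff_ip_fst : ContDiff ℝ ∞ (fun p : (Fin m → ℝ) × (Fin m → ℝ) => ip p.1 p.1) :=
  contDiff_ip.comp (contDiff_fst.prodMk contDiff_fst)

lemma contDiff_ip_snd : ContDiff ℝ ∞ (fun p : (Fin m → ℝ) × (Fin m → ℝ) => ip p.2 p.2) :=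
  contDiff_ip.comp (contDiff_snd.prodMk contDiff_snd)

lemma contDiffAt_rho {p : (Fin m → ℝ) × (Fin m → ℝ)} (h : LinearIndependent ℝ ![p.1, p.2]) :
    ContDiffAt ℝ ∞ (fun p : (Fin m → ℝ) × (Fin m → ℝ) => rho p.1 p.2) p := by
  unfold rho
  apply ContDiffAt.div
  · apply ContDiffAt.sqrt
    · exact ((contDiff_ip_fst.mul contDiff_ip_snd).sub (contDiff_ip.pow 2)).contDiffAt
    · exact (gram_pos h).ne'
  · exact contDiff_ip_fst.contDiffAt
  · exact (ip_self_pos (h.ne_zero 0)).ne'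

lemma continuousOn_rho :
    ContinuousOn (fun p : (Fin m → ℝ) × (Fin m → ℝ) => rho p.1 p.2) {p | p.1 ≠ 0} := by
  unfold rho
  apply ContinuousOn.div
  · exact (((contDiff_ip_fst.mul contDiff_ip_snd).sub (contDiff_ip.pow 2)).continuous.sqrt).continuousOn
  · exact contDiff_ip_fst.continuous.continuousOn
  · intro p hp; exact (ip_self_pos hp).ne'

end Pool.Agent.Lib_helper91.RP
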