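import Mathlib
import Pool.Agent.Lib_helper91.RP.Rho

/-! The smoothed maximum of a finite family of forms (module T1). -/

namespace Pool.Agent.Lib_helper91.RP

open Pool.Agent.Lib_helper71.RP
open MeasureTheory Set
open scoped ContDiff ENNReal

/-- smooth approximation of the positive part -/
noncomputable def phi (s t : ℝ) : ℝ := (t + Real.sqrt (t ^ 2 + s ^ 2)) / 2

lemma abs_le_sqrt_add (s t : ℝ) : |t| ≤ Real.sqrt (t ^ 2 + s ^ 2) :=
  Real.abs_le_sqrt (by nlinarith [sq_nonneg s])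

lemma phi_nonneg (s t : ℝ) : 0 ≤ phi s t := by
  have := abs_le_sqrt_add s t
  have h2 := neg_abs_le t
  unfold phi; linarith

lemma le_phi (s t : ℝ) : t ≤ phi s t := by
  have := abs_le_sqrt_add s t
  have h2 := le_abs_self t
  unfold phi; linarith

lemma phi_pos {s : ℝ} (hs : s ≠ 0) (t : ℝ) : 0 < phi s t := by
  have h1 : |t| < Real.sqrt (t ^ 2 + s ^ 2) := by
    apply Real.lt_sqrt_of_sq_lt
    rw [sq_abs]
    have : 0 < s ^ 2 := by positivity
    linarith
  have h2 := neg_abs_le t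
  unfold phi; linarith

lemma phi_mono {s s' : ℝ} (hs : 0 ≤ s) (h : s ≤ s') (t : ℝ) : phi s t ≤ phi s' t := by
  have : Real.sqrt (t ^ 2 + s ^ 2) ≤ Real.sqrt (t ^ 2 + s' ^ 2) := by
    apply Real.sqrt_le_sqrt
    have : s ^ 2 ≤ s' ^ 2 := pow_le_pow_left₀ hs h 2
    linarith
  unfold phi; linarith

lemma sqrt_add_le' (a b c d : ℝ) :
    Real.sqrt ((a + c) ^ 2 + (b + d) ^ 2) ≤ Real.sqrt (a ^ 2 + b ^ 2) + Real.sqrt (c ^ 2 + d ^ 2) := by
  have := sqrt_ip_add_le ![a, b] ![c, d]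
  simpa [ip, Fin.sum_univ_two, sq] using this

lemma phi_add_le (s s' t t' : ℝ) : phi (s + s') (t + t') ≤ phi s t + phi s' t' := by
  have := sqrt_add_le' t s t' s'
  unfold phi; linarith

lemma phi_le {s t g : ℝ} (hs : 0 ≤ s) (hg : 0 ≤ g) (ht : t ≤ g) : phi s t ≤ g + s := by
  have h1 : Real.sqrt (t ^ 2 + s ^ 2) ≤ |t| + s := by
    apply Real.sqrt_le_iff.2
    refine ⟨by positivity, ?_⟩
    have := sq_abs t
    nlinarith [mul_nonneg (abs_nonneg t) hs]
  have h2 : t + |t| ≤ 2 * g := by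
    rcases abs_cases t with h | h <;> linarith
  unfold phi; linarith

lemma phi_smul {a : ℝ} (ha : 0 ≤ a) (s t : ℝ) : phi (a * s) (a * t) = a * phi s t := by
  unfold phi
  rw [show (a * t) ^ 2 + (a * s) ^ 2 = a ^ 2 * (t ^ 2 + s ^ 2) by ring,
    Real.sqrt_mul (sq_nonneg a), Real.sqrt_sq ha]
  ring

lemma continuous_phi : Continuous (fun q : ℝ × ℝ => phi q.1 q.2) := by
  unfold phi; fun_prop

lemma contDiffAt_phi {q : ℝ × ℝ} (h : q.1 ≠ 0) :
    ContDiffAt ℝ ∞ (fun q : ℝ × ℝ => phi q.1 q.2) q := by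
  unfold phi
  apply ContDiffAt.div_const
  apply ContDiffAt.add contDiffAt_snd
  apply ContDiffAt.sqrt
  · exact (contDiffAt_snd.pow 2).add (contDiffAt_fst.pow 2)
  · have : 0 < q.1 ^ 2 := by positivity
    have h2 := sq_nonneg q.2
    exact (by linarith : 0 < q.2 ^ 2 + q.1 ^ 2).ne'

variable {n : ℕ} {ι : Type}

/-- the family with the zero form added -/
noncomputable def fo (f : ι → (Fin (n + 1) → ℝ) → ((Fin (n + 1) → ℝ) →L[ℝ] ℝ)) (o : Option ι)
    (x : Fin (n + 1) → ℝ) : (Fin (n + 1) → ℝ) →L[ℝ] ℝ :=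
  match o with
  | none => 0
  | some i => f i x

/-- the maximum of the forms and `0` -/
noncomputable def gm [Fintype ι] (f : ι → (Fin (n + 1) → ℝ) → ((Fin (n + 1) → ℝ) →L[ℝ] ℝ))
    (x w : Fin (n + 1) → ℝ) : ℝ :=
  Finset.univ.sup' (Finset.univ_nonempty (α := Option ι)) (fun o => fo f o x w)

/-- the smoothed maximum -/
noncomputable def FF [Fintype ι] (f : ι → (Fin (n + 1) → ℝ) → ((Fin (n + 1) → ℝ) →L[ℝ] ℝ))
    (p k : ℝ) (x w : Fin (n + 1) → ℝ) : ℝ :=
  (∑ o : Option ι, phi (k * rho x w) (fo f o x w) ^ p) ^ (1 / p) + k * rho x w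

section
variable [Fintype ι] {f : ι → (Fin (n + 1) → ℝ) → ((Fin (n + 1) → ℝ) →L[ℝ] ℝ)}

lemma gm_nonneg (x w : Fin (n + 1) → ℝ) : 0 ≤ gm f x w :=
  Finset.le_sup' (fun o => fo f o x w) (Finset.mem_univ none)

lemma le_gm (o : Option ι) (x w : Fin (n + 1) → ℝ) : fo f o x w ≤ gm f x w :=
  Finset.le_sup' (fun o => fo f o x w) (Finset.mem_univ o)

lemma gm_le {x w : Fin (n + 1) → ℝ} {m : ℝ} (hm : 0 ≤ m) (h : ∀ i, f i x w ≤ m) :
    gm f x w ≤ m := by
  apply Finset.sup'_le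
  rintro (_ | i) _
  · exact hm
  · exact h i

lemma FF_le {p k : ℝ} (hp : 1 ≤ p) (hk : 0 ≤ k) (x w : Fin (n + 1) → ℝ) :
    FF f p k x w ≤ (Fintype.card (Option ι) : ℝ) ^ (1 / p) * (gm f x w + 2 * k * rho x w) := by
  have hr := rho_nonneg x w
  have hg := gm_nonneg (f := f) x w
  have hkr : 0 ≤ k * rho x w := mul_nonneg hk hr
  have hp0 : 0 < p := by linarith
  have hN : (1 : ℝ) ≤ (Fintype.card (Option ι) : ℝ) := by
    exact_mod_cast Fintype.card_pos
  have hN1 : 1 ≤ (Fintype.card (Option ι) : ℝ) ^ (1 / p) := Real.one_le_rpow hN (by positivity)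
  have h1 : (∑ o : Option ι, phi (k * rho x w) (fo f o x w) ^ p) ^ (1 / p)
      ≤ (Fintype.card (Option ι) : ℝ) ^ (1 / p) * (gm f x w + k * rho x w) := by
    have hb : 0 ≤ gm f x w + k * rho x w := by linarith
    calc (∑ o : Option ι, phi (k * rho x w) (fo f o x w) ^ p) ^ (1 / p)
        ≤ (∑ o : Option ι, (gm f x w + k * rho x w) ^ p) ^ (1 / p) := by
          apply Real.rpow_le_rpow
          · exact Finset.sum_nonneg fun o _ => Real.rpow_nonneg (phi_nonneg _ _) _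
          · exact Finset.sum_le_sum fun o _ =>
              Real.rpow_le_rpow (phi_nonneg _ _) (phi_le hkr hg (le_gm o x w)) hp0.le
          · positivity
      _ = ((Fintype.card (Option ι) : ℝ) * (gm f x w + k * rho x w) ^ p) ^ (1 / p) := by
          rw [Finset.sum_const, Finset.card_univ, nsmul_eq_mul]
      _ = _ := by
          rw [Real.mul_rpow (by positivity) (Real.rpow_nonneg hb _), ← Real.rpow_mul hb,
            mul_one_div_cancel hp0.ne', Real.rpow_one]
  unfold FF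
  nlinarith

lemma le_FF {p k : ℝ} (hp : 1 ≤ p) (hk : 0 ≤ k) (i : ι) (x w : Fin (n + 1) → ℝ) :
    f i x w ≤ FF f p k x w := by
  have hr := rho_nonneg x w
  have hkr : 0 ≤ k * rho x w := mul_nonneg hk hr
  have hp0 : 0 < p := by linarith
  have h1 : phi (k * rho x w) (fo f (some i) x w)
      ≤ (∑ o : Option ι, phi (k * rho x w) (fo f o x w) ^ p) ^ (1 / p) := by
    have h2 : phi (k * rho x w) (fo f (some i) x w)
        = ((phi (k * rho x w) (fo f (some i) x w)) ^ p) ^ (1 / p) := by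
      rw [← Real.rpow_mul (phi_nonneg _ _), mul_one_div_cancel hp0.ne', Real.rpow_one]
    conv_lhs => rw [h2]
    apply Real.rpow_le_rpow (Real.rpow_nonneg (phi_nonneg _ _) _) _ (by positivity)
    exact Finset.single_le_sum (f := fun o => phi (k * rho x w) (fo f o x w) ^ p)
      (fun o _ => Real.rpow_nonneg (phi_nonneg _ _) _) (Finset.mem_univ (some i))
  have h3 : f i x w ≤ phi (k * rho x w) (fo f (some i) x w) := le_phi _ _
  unfold FF
  linarith

lemma FF_sub_add_le {p k : ℝ} (hp : 1 ≤ p) (hk : 0 ≤ k) {x : Fin (n + 1) → ℝ} (hx : x ≠ 0)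
    (w w' : Fin (n + 1) → ℝ) :
    FF f p k x (w + w') - k * rho x (w + w')
      ≤ (FF f p k x w - k * rho x w) + (FF f p k x w' - k * rho x w') := by
  have hp0 : 0 < p := by linarith
  unfold FF
  rw [add_sub_cancel_right, add_sub_cancel_right, add_sub_cancel_right]
  refine le_trans ?_ (Real.Lp_add_le_of_nonneg Finset.univ hp
    (fun o _ => phi_nonneg (k * rho x w) (fo f o x w))
    (fun o _ => phi_nonneg (k * rho x w') (fo f o x w')))
  apply Real.rpow_le_rpow
  · exact Finset.sum_nonneg fun o _ => Real.rpow_nonneg (phi_nonneg _ _) _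
  · apply Finset.sum_le_sum
    intro o _
    apply Real.rpow_le_rpow (phi_nonneg _ _) _ hp0.le
    refine le_trans ?_ (phi_add_le _ _ _ _)
    rw [map_add, ← mul_add]
    exact phi_mono (mul_nonneg hk (rho_nonneg _ _))
      (mul_le_mul_of_nonneg_left (rho_add_le hx w w') hk) _
  · positivity

lemma FF_subadd {p k : ℝ} (hp : 1 ≤ p) (hk : 0 ≤ k) {x : Fin (n + 1) → ℝ} (hx : x ≠ 0)
    (w w' : Fin (n + 1) → ℝ) :
    FF f p k x (w + w') ≤ FF f p k x w + FF f p k x w' := by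
  have h := FF_sub_add_le (f := f) hp hk hx w w'
  have h2 := mul_le_mul_of_nonneg_left (rho_add_le hx w w') hk
  linarith

lemma FF_homog {p k : ℝ} (hp : 1 ≤ p) (x w : Fin (n + 1) → ℝ) {s : ℝ}
    (hs : 0 ≤ s) : FF f p k x (s • w) = s * FF f p k x w := by
  have hp0 : 0 < p := by linarith
  unfold FF
  rw [rho_smul x w hs]
  have h1 : ∀ o : Option ι, phi (k * (s * rho x w)) (fo f o x (s • w)) ^ p
      = s ^ p * phi (k * rho x w) (fo f o x w) ^ p := by
    intro o
    rw [map_smul, smul_eq_mul, show k * (s * rho x w) = s * (k * rho x w) by ring, phi_smul hs,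
      Real.mul_rpow hs (phi_nonneg _ _)]
  simp only [h1]
  rw [← Finset.mul_sum, Real.mul_rpow (Real.rpow_nonneg hs _)
    (Finset.sum_nonneg fun o _ => Real.rpow_nonneg (phi_nonneg _ _) _), ← Real.rpow_mul hs,
    mul_one_div_cancel hp0.ne', Real.rpow_one]
  ring

lemma FF_pos {p k : ℝ} (hk : 0 < k) {x w : Fin (n + 1) → ℝ}
    (h : LinearIndependent ℝ ![x, w]) : 0 < FF f p k x w := by
  unfold FF
  have h1 : 0 ≤ (∑ o : Option ι, phi (k * rho x w) (fo f o x w) ^ p) ^ (1 / p) :=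
    Real.rpow_nonneg (Finset.sum_nonneg fun o _ => Real.rpow_nonneg (phi_nonneg _ _) _) _
  have h2 := mul_pos hk (rho_pos h)
  linarith

lemma FF_nonneg {p k : ℝ} (hk : 0 ≤ k) (x w : Fin (n + 1) → ℝ) : 0 ≤ FF f p k x w := by
  unfold FF
  have h1 : 0 ≤ (∑ o : Option ι, phi (k * rho x w) (fo f o x w) ^ p) ^ (1 / p) :=
    Real.rpow_nonneg (Finset.sum_nonneg fun o _ => Real.rpow_nonneg (phi_nonneg _ _) _) _
  have h2 := mul_nonneg hk (rho_nonneg x w)
  linarith

lemma FF_inv_pos (hf : IsForms n f) {p k : ℝ} {x : Fin (n + 1) → ℝ} (hx : x ≠ 0)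
    (w : Fin (n + 1) → ℝ) {a : ℝ} (ha : 0 < a) (b : ℝ) :
    FF f p k (a • x) (a • w + b • x) = FF f p k x w := by
  unfold FF
  rw [rho_inv x w ha.ne' b]
  have h1 : ∀ o : Option ι, fo f o (a • x) (a • w + b • x) = fo f o x w := by
    rintro (_ | i)
    · rfl
    · exact hf.inv i x w hx a b ha
  simp only [h1]

lemma FF_neg (hf : IsForms n f) {p k : ℝ} {x : Fin (n + 1) → ℝ} (hx : x ≠ 0)
    (w : Fin (n + 1) → ℝ) :
    FF f p k (-x) (-w) = FF f p k x w := by
  obtain ⟨s, hs⟩ := hf.neg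
  unfold FF
  have h0 : rho (-x) (-w) = rho x w := by
    have := rho_inv x w (a := -1) (by norm_num) 0
    simpa using this
  rw [h0]
  have h1 : ∑ o : Option ι, phi (k * rho x w) (fo f o (-x) (-w)) ^ p
      = ∑ o : Option ι, phi (k * rho x w) (fo f o x w) ^ p := by
    rw [← Equiv.sum_comp (Equiv.optionCongr s)]
    apply Finset.sum_congr rfl
    rintro (_ | i) _
    · simp [fo]
    · have : fo f ((Equiv.optionCongr s) (some i)) (-x) (-w) = fo f (some i) x w := by
        simpa [fo] using hs i x w hx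
      rw [this]
  rw [h1]

lemma FF_inv (hf : IsForms n f) {p k : ℝ} {x : Fin (n + 1) → ℝ} (hx : x ≠ 0)
    (w : Fin (n + 1) → ℝ) {a : ℝ} (ha : a ≠ 0) (b : ℝ) :
    FF f p k (a • x) (a • w + b • x) = FF f p k x w := by
  rcases lt_or_gt_of_ne ha with h | h
  · have h1 := FF_neg (p := p) (k := k) hf (x := a • x) (smul_ne_zero ha hx) (a • w + b • x)
    have h2 : -(a • x) = (-a) • x := by rw [neg_smul]
    have h3 : -(a • w + b • x) = (-a) • w + (-b) • x := by rw [neg_smul, neg_smul]; abel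
    rw [← h1, h2, h3]
    exact FF_inv_pos hf hx w (by linarith) _
  · exact FF_inv_pos hf hx w h b

omit [Fintype ι] in
lemma contDiffAt_fo (hf : IsForms n f) (o : Option ι)
    {q : (Fin (n + 1) → ℝ) × (Fin (n + 1) → ℝ)} (hq : q.1 ≠ 0) :
    ContDiffAt ℝ ∞ (fun q : (Fin (n + 1) → ℝ) × (Fin (n + 1) → ℝ) => fo f o q.1 q.2) q := by
  cases o with
  | none => exact contDiffAt_const
  | some i =>
    have h1 : ContDiffAt ℝ ∞ (f i) q.1 :=
      (hf.smooth i).contDiffAt (isOpen_ne.mem_nhds hq)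
    have h2 : ContDiffAt ℝ ∞ (fun q : (Fin (n + 1) → ℝ) × (Fin (n + 1) → ℝ) => f i q.1) q :=
      h1.comp q contDiffAt_fst
    exact h2.clm_apply contDiffAt_snd

lemma contDiffAt_FF (hf : IsForms n f) {p k : ℝ} (hk : 0 < k)
    {q : (Fin (n + 1) → ℝ) × (Fin (n + 1) → ℝ)} (hq : LinearIndependent ℝ ![q.1, q.2]) :
    ContDiffAt ℝ ∞ (fun q : (Fin (n + 1) → ℝ) × (Fin (n + 1) → ℝ) => FF f p k q.1 q.2) q := by
  have hx : q.1 ≠ 0 := hq.ne_zero 0
  have hrp := mul_pos hk (rho_pos hq)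
  have hr : ContDiffAt ℝ ∞ (fun q : (Fin (n + 1) → ℝ) × (Fin (n + 1) → ℝ) => k * rho q.1 q.2) q :=
    contDiffAt_const.mul (contDiffAt_rho hq)
  unfold FF
  refine ContDiffAt.add ?_ hr
  apply ContDiffAt.rpow_const_of_ne
  · apply ContDiffAt.sum
    intro o _
    apply ContDiffAt.rpow_const_of_ne
    · exact (contDiffAt_phi (q := (k * rho q.1 q.2, fo f o q.1 q.2)) hrp.ne').comp q
        (hr.prodMk (contDiffAt_fo hf o hx))
    · exact (phi_pos hrp.ne' _).ne'
  · apply ne_of_gt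
    apply Finset.sum_pos
    · intro o _
      exact Real.rpow_pos_of_pos (phi_pos hrp.ne' _) _
    · exact Finset.univ_nonempty

lemma continuousOn_FF (hf : IsForms n f) {p k : ℝ} (hp : 1 ≤ p) :
    ContinuousOn (fun q : (Fin (n + 1) → ℝ) × (Fin (n + 1) → ℝ) => FF f p k q.1 q.2)
      {q | q.1 ≠ 0} := by
  have hp0 : 0 < p := by linarith
  have hr : ContinuousOn (fun q : (Fin (n + 1) → ℝ) × (Fin (n + 1) → ℝ) => k * rho q.1 q.2)
      {q | q.1 ≠ 0} := continuousOn_const.mul continuousOn_rho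
  unfold FF
  refine ContinuousOn.add ?_ hr
  apply ContinuousOn.rpow_const
  · apply continuousOn_finsetSum
    intro o _
    apply ContinuousOn.rpow_const
    · have h2 : ContinuousOn (fun q : (Fin (n + 1) → ℝ) × (Fin (n + 1) → ℝ) =>
          ((k * rho q.1 q.2, fo f o q.1 q.2) : ℝ × ℝ)) {q | q.1 ≠ 0} := by
        apply hr.prodMk
        intro q hq
        exact (contDiffAt_fo hf o hq).continuousAt.continuousWithinAt
      exact continuous_phi.comp_continuousOn h2
    · intro _ _; right; exact hp0.le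
  · intro _ _; right; positivity

end

theorem isFinslerRP_FF [Fintype ι] {f : ι → (Fin (n + 1) → ℝ) → ((Fin (n + 1) → ℝ) →L[ℝ] ℝ)}
    (hf : IsForms n f) {p k : ℝ} (hp : 1 ≤ p) (hk : 0 < k) : IsFinslerRP n (FF f p k) where
  smooth := fun q hq => (contDiffAt_FF hf hk hq).contDiffWithinAt
  inv := fun _ w hx _ b ha => FF_inv hf hx w ha b
  pos := fun _ _ h => FF_pos hk h
  homog := fun x w _ _ hs => FF_homog hp x w hs
  subadd := fun _ w w' hx => FF_subadd hp hk.le hx w w'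

end Pool.Agent.Lib_helper91.RP
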