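import Mathlib
import Pool.Agent.Lib_helper91.RP.Smooth

/-! Volumes of the polars of the smoothed maxima (module T1). -/

namespace Pool.Agent.Lib_helper91.RP

open Pool.Agent.Lib_helper71.RP
open MeasureTheory Set
open scoped ContDiff ENNReal Pointwise

variable {n : ℕ} {ι : Type} [Fintype ι]

/-- the point of `ℝ^(n+1)` with affine coordinates `y` -/
abbrev pt (y : Fin n → ℝ) : Fin (n + 1) → ℝ := Fin.cons 1 y
/-- the tangent vector with affine coordinates `w` -/
abbrev tv (w : Fin n → ℝ) : Fin (n + 1) → ℝ := Fin.cons 0 w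

omit [Fintype ι] in
lemma pt_ne (y : Fin n → ℝ) : pt y ≠ 0 := by
  intro h
  have := congrFun h 0
  simp [pt] at this

lemma continuous_pt : Continuous (pt : (Fin n → ℝ) → (Fin (n + 1) → ℝ)) := by
  apply continuous_pi
  intro i
  refine Fin.cases ?_ (fun j => ?_) i
  · simp [pt]; exact continuous_const
  · simp [pt]; exact continuous_apply j

lemma lin_indep_pt_tv (y : Fin n → ℝ) {w : Fin n → ℝ} (hw : w ≠ 0) :
    LinearIndependent ℝ ![pt y, tv w] := by
  rw [LinearIndependent.pair_iff]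
  intro s t h
  have h0 := congrFun h 0
  simp [pt, tv] at h0
  refine ⟨h0, ?_⟩
  by_contra ht
  apply hw
  funext j
  have hj := congrFun h j.succ
  simp [pt, tv, h0] at hj
  rcases hj with hj | hj
  · exact absurd hj ht
  · exact hj

/-- the polar of `gm + κ rho` -/
def Pk (f : ι → (Fin (n + 1) → ℝ) → ((Fin (n + 1) → ℝ) →L[ℝ] ℝ)) (κ : ℝ) (y : Fin n → ℝ) :
    Set (Fin n → ℝ) :=
  {xi | ∀ w : Fin n → ℝ, ∑ j, xi j * w j ≤ gm f (pt y) (tv w) + κ * rho (pt y) (tv w)}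

variable {f : ι → (Fin (n + 1) → ℝ) → ((Fin (n + 1) → ℝ) →L[ℝ] ℝ)}

lemma Pk_mono {κ κ' : ℝ} (h : κ ≤ κ') (y : Fin n → ℝ) : Pk f κ y ⊆ Pk f κ' y := by
  intro xi hxi w
  have := hxi w
  have h2 := mul_le_mul_of_nonneg_right h (rho_nonneg (pt y) (tv w))
  linarith

lemma Pk_zero_subset (y : Fin n → ℝ) : Pk f 0 y ⊆ polarForms f y := by
  intro xi hxi w m hm hle
  have h1 := hxi w
  rw [zero_mul, add_zero] at h1
  exact h1.trans (gm_le hm hle)

lemma iInter_Pk (y : Fin n → ℝ) : ⋂ j : ℕ, Pk f (1 / ((j : ℝ) + 1)) y ⊆ polarForms f y := by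
  refine Subset.trans ?_ (Pk_zero_subset y)
  intro xi hxi w
  rw [mem_iInter] at hxi
  have h1 : ∀ j : ℕ, ∑ i, xi i * w i ≤ gm f (pt y) (tv w) + 1 / ((j : ℝ) + 1) * rho (pt y) (tv w) :=
    fun j => hxi j w
  have h2 : Filter.Tendsto (fun j : ℕ => gm f (pt y) (tv w) + 1 / ((j : ℝ) + 1) * rho (pt y) (tv w))
      Filter.atTop (nhds (gm f (pt y) (tv w) + 0 * rho (pt y) (tv w))) :=
    tendsto_const_nhds.add (tendsto_one_div_add_atTop_nhds_zero_nat.mul_const _)
  exact ge_of_tendsto h2 (Filter.Eventually.of_forall h1)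

lemma continuous_gm (hf : IsForms n f) (w : Fin n → ℝ) :
    Continuous (fun y : Fin n → ℝ => gm f (pt y) (tv w)) := by
  unfold gm
  apply Continuous.finset_sup'_apply
  intro o _
  rw [continuous_iff_continuousAt]
  intro y
  have h1 := (contDiffAt_fo hf o (q := (pt y, tv w)) (pt_ne y)).continuousAt
  have h2 : ContinuousAt (fun y : Fin n → ℝ => (pt y, tv w)) y :=
    (continuous_pt.prodMk continuous_const).continuousAt
  exact ContinuousAt.comp (f := fun y : Fin n → ℝ => (pt y, tv w)) h1 h2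

lemma continuous_rho_pt (w : Fin n → ℝ) : Continuous (fun y : Fin n → ℝ => rho (pt y) (tv w)) := by
  rw [continuous_iff_continuousAt]
  intro y
  have h1 : ContinuousAt (fun p : (Fin (n + 1) → ℝ) × (Fin (n + 1) → ℝ) => rho p.1 p.2)
      (pt y, tv w) := by
    apply continuousOn_rho.continuousAt
    exact (isOpen_ne.preimage continuous_fst).mem_nhds (pt_ne y)
  have h2 : ContinuousAt (fun y : Fin n → ℝ => (pt y, tv w)) y :=
    (continuous_pt.prodMk continuous_const).continuousAt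
  exact ContinuousAt.comp (f := fun y : Fin n → ℝ => (pt y, tv w)) h1 h2

lemma isClosed_Pk (hf : IsForms n f) (κ : ℝ) :
    IsClosed {q : (Fin n → ℝ) × (Fin n → ℝ) | q.2 ∈ Pk f κ q.1} := by
  have : {q : (Fin n → ℝ) × (Fin n → ℝ) | q.2 ∈ Pk f κ q.1}
      = ⋂ w : Fin n → ℝ, {q : (Fin n → ℝ) × (Fin n → ℝ) |
          ∑ j, q.2 j * w j ≤ gm f (pt q.1) (tv w) + κ * rho (pt q.1) (tv w)} := by
    ext q; simp [Pk]
  rw [this]
  apply isClosed_iInter
  intro w
  apply isClosed_le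
  · apply continuous_finsetSum
    intro j _
    exact ((continuous_apply j).comp continuous_snd).mul continuous_const
  · exact ((continuous_gm hf w).comp continuous_fst).add
      (continuous_const.mul ((continuous_rho_pt w).comp continuous_fst))

lemma measurable_vol_Pk (hf : IsForms n f) (κ : ℝ) :
    Measurable (fun y : Fin n → ℝ => volume (Pk f κ y)) := by
  have h := measurable_measure_prodMk_left (ν := (volume : Measure (Fin n → ℝ)))
    (isClosed_Pk hf κ).measurableSet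
  exact h

lemma measurableSet_Pk (hf : IsForms n f) (κ : ℝ) (y : Fin n → ℝ) : MeasurableSet (Pk f κ y) := by
  have h := ((isClosed_Pk hf κ).preimage
    (Continuous.prodMk continuous_const continuous_id : Continuous fun xi : Fin n → ℝ => (y, xi)))
  exact h.measurableSet

/-- the norm in `Fin m → ℝ` is at most the Euclidean one -/
lemma norm_le_sqrt_ip {m : ℕ} (v : Fin m → ℝ) : ‖v‖ ≤ Real.sqrt (ip v v) := by
  rw [pi_norm_le_iff_of_nonneg (Real.sqrt_nonneg _)]
  intro i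
  rw [Real.norm_eq_abs]
  apply Real.abs_le_sqrt
  unfold ip
  rw [sq]
  exact Finset.single_le_sum (f := fun i => v i * v i) (fun i _ => mul_self_nonneg _)
    (Finset.mem_univ i)

omit [Fintype ι] in
lemma exists_bound_form (hf : IsForms n f) (i : ι) :
    ∃ C : ℝ, 0 ≤ C ∧ ∀ x w : Fin (n + 1) → ℝ, x ≠ 0 → f i x w ≤ C * rho x w := by
  have hS : IsCompact {x : Fin (n + 1) → ℝ | ip x x = 1} := by
    apply Metric.isCompact_of_isClosed_isBounded
    · apply isClosed_eq _ continuous_const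
      exact (contDiff_ip.comp (contDiff_id.prodMk contDiff_id)).continuous
    · rw [isBounded_iff_forall_norm_le]
      refine ⟨1, fun x hx => ?_⟩
      have := norm_le_sqrt_ip x
      rw [hx, Real.sqrt_one] at this
      exact this
  have hc : ContinuousOn (f i) {x : Fin (n + 1) → ℝ | ip x x = 1} := by
    apply (hf.smooth i).continuousOn.mono
    intro x hx h0
    rw [mem_ofPred_eq, h0] at hx
    simp [ip] at hx
  obtain ⟨C, hC⟩ := hS.exists_bound_of_continuousOn hc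
  refine ⟨max C 0, le_max_right _ _, ?_⟩
  intro x w hx
  have hp := ip_self_pos hx
  set r := Real.sqrt (ip x x) with hr
  have hr0 : 0 < r := Real.sqrt_pos.2 hp
  have hrr : r * r = ip x x := Real.mul_self_sqrt hp.le
  have hinv := hf.inv i x w hx r⁻¹ (-(r⁻¹ * (ip x w / ip x x))) (by positivity)
  have hv : r⁻¹ • w + (-(r⁻¹ * (ip x w / ip x x))) • x = r⁻¹ • pr x w := by
    unfold pr; rw [smul_sub, smul_smul, neg_smul, sub_eq_add_neg]
  rw [hv] at hinv
  rw [← hinv]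
  have hu : ip (r⁻¹ • x) (r⁻¹ • x) = 1 := by
    rw [ip_smul_left, ip_smul_right, ← hrr]; field_simp
  have hn : ‖f i (r⁻¹ • x)‖ ≤ C := hC _ hu
  calc f i (r⁻¹ • x) (r⁻¹ • pr x w) ≤ ‖f i (r⁻¹ • x) (r⁻¹ • pr x w)‖ := Real.le_norm_self _
    _ ≤ ‖f i (r⁻¹ • x)‖ * ‖r⁻¹ • pr x w‖ := ContinuousLinearMap.le_opNorm _ _
    _ ≤ max C 0 * rho x w := by
        apply mul_le_mul (hn.trans (le_max_left _ _)) _ (norm_nonneg _) (le_max_right _ _)
        rw [norm_smul, Real.norm_eq_abs, abs_of_pos (by positivity : 0 < r⁻¹), rho_eq hx, ← hr,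
          div_eq_inv_mul]
        exact mul_le_mul_of_nonneg_left (norm_le_sqrt_ip _) (by positivity)

lemma exists_bound_gm (hf : IsForms n f) :
    ∃ C : ℝ, 0 ≤ C ∧ ∀ x w : Fin (n + 1) → ℝ, x ≠ 0 → gm f x w ≤ C * rho x w := by
  choose C hC0 hC using fun i => exists_bound_form hf i
  refine ⟨∑ i, C i, Finset.sum_nonneg fun i _ => hC0 i, ?_⟩
  intro x w hx
  apply gm_le
  · exact mul_nonneg (Finset.sum_nonneg fun i _ => hC0 i) (rho_nonneg _ _)
  · intro i
    refine (hC i x w hx).trans (mul_le_mul_of_nonneg_right ?_ (rho_nonneg _ _))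
    exact Finset.single_le_sum (f := C) (fun i _ => hC0 i) (Finset.mem_univ i)

lemma ip_cons (a b : ℝ) (u v : Fin n → ℝ) :
    ip (Fin.cons a u : Fin (n + 1) → ℝ) (Fin.cons b v) = a * b + ip u v := by
  unfold ip
  rw [Fin.sum_univ_succ]
  simp

/-- The polar of `C rho` is contained in an ellipsoid. -/
lemma mem_ellipsoid {C : ℝ} {y xi : Fin n → ℝ}
    (h : ∀ w : Fin n → ℝ, ∑ j, xi j * w j ≤ C * rho (pt y) (tv w)) :
    ip xi xi + ip xi y ^ 2 ≤ C ^ 2 / (1 + ip y y) := by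
  set s := ip xi y with hs
  set Y := ip y y with hY
  have hY0 : 0 ≤ Y := ip_self_nonneg y
  have hw := h (xi + s • y)
  have h1 : ∑ j, xi j * (xi + s • y) j = ip xi xi + s ^ 2 := by
    have : ∑ j, xi j * (xi + s • y) j = ip xi (xi + s • y) := rfl
    rw [this, ip_add_right, ip_smul_right, ← hs]; ring
  rw [h1] at hw
  set Q := ip xi xi + s ^ 2 with hQ
  have hQ0 : 0 ≤ Q := add_nonneg (ip_self_nonneg xi) (sq_nonneg s)
  have h2 : rho (pt y) (tv (xi + s • y)) = Real.sqrt ((1 + Y) * Q) / (1 + Y) := by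
    unfold rho pt tv
    rw [ip_cons, ip_cons, ip_cons]
    congr 2
    · simp only [ip_add_left, ip_add_right, ip_smul_left, ip_smul_right]
      rw [ip_comm y xi, ← hs, ← hY, hQ]; ring
    · ring
  rw [h2] at hw
  have hY1 : 0 < 1 + Y := by linarith
  have h3 : Real.sqrt ((1 + Y) * Q) ^ 2 = (1 + Y) * Q := Real.sq_sqrt (by positivity)
  have h4 : 0 ≤ Real.sqrt ((1 + Y) * Q) := Real.sqrt_nonneg _
  have h5 : Q ^ 2 ≤ (C * (Real.sqrt ((1 + Y) * Q) / (1 + Y))) ^ 2 := by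
    exact pow_le_pow_left₀ hQ0 hw 2
  have h6 : (C * (Real.sqrt ((1 + Y) * Q) / (1 + Y))) ^ 2 = C ^ 2 * Q / (1 + Y) := by
    rw [mul_pow, div_pow, h3]; field_simp
  rw [h6] at h5
  rcases hQ0.lt_or_eq with hq | hq
  · rw [le_div_iff₀ hY1] at h5 ⊢
    have : Q * (Q * (1 + Y)) ≤ Q * C ^ 2 := by nlinarith
    exact le_of_mul_le_mul_left this hq
  · rw [← hq]; positivity

lemma volume_ellipsoid_le (r : ℝ) (hr : 0 ≤ r) (y : Fin n → ℝ) :
    volume {xi : Fin n → ℝ | ip xi xi + ip xi y ^ 2 ≤ r ^ 2}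
      ≤ ENNReal.ofReal ((2 * r) ^ n / Real.sqrt (1 + ip y y)) := by
  set Y := ip y y with hY
  have hY0 : 0 ≤ Y := ip_self_nonneg y
  set q := Real.sqrt (1 + Y) with hq
  have hq0 : 0 < q := Real.sqrt_pos.2 (by linarith)
  have hqq : q * q = 1 + Y := Real.mul_self_sqrt (by linarith)
  set s := 1 / (1 + q) with hs
  have hs1 : s * (1 + q) = 1 := by rw [hs]; field_simp
  set M : Matrix (Fin n) (Fin n) ℝ := 1 + Matrix.replicateCol Unit (s • y) * Matrix.replicateRow Unit y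
    with hM
  have hdet : M.det = q := by
    rw [hM, Matrix.det_one_add_replicateCol_mul_replicateRow]
    have : y ⬝ᵥ (s • y) = s * Y := by
      rw [dotProduct_smul, smul_eq_mul]; rfl
    rw [this]
    have : Y = (q - 1) * (1 + q) := by nlinarith
    rw [this]
    calc 1 + s * ((q - 1) * (1 + q)) = 1 + (s * (1 + q)) * (q - 1) := by ring
      _ = q := by rw [hs1]; ring
  have hMv : ∀ xi : Fin n → ℝ, M.mulVec xi = xi + (s * ip xi y) • y := by
    intro xi
    rw [hM, Matrix.add_mulVec, Matrix.one_mulVec]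
    congr 1
    rw [← Matrix.mulVec_mulVec]
    funext i
    simp [Matrix.mulVec, dotProduct, Matrix.replicateCol, Matrix.replicateRow, ip]
    ring_nf
    have : ∑ x, y x * xi x = ∑ i, y i * xi i := rfl
    simp [mul_comm]
  have hsub : {xi : Fin n → ℝ | ip xi xi + ip xi y ^ 2 ≤ r ^ 2}
      ⊆ (Matrix.toLin' M) ⁻¹' (Metric.closedBall 0 r) := by
    intro xi hxi
    rw [mem_preimage, mem_closedBall_zero_iff, Matrix.toLin'_apply, hMv]
    refine (norm_le_sqrt_ip _).trans ?_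
    apply Real.sqrt_le_iff.2
    refine ⟨hr, ?_⟩
    rw [mem_ofPred_eq] at hxi
    refine le_trans (le_of_eq ?_) hxi
    simp only [ip_add_left, ip_add_right, ip_smul_left, ip_smul_right]
    rw [ip_comm y xi, ← hY]
    have h2 : 2 * s + s ^ 2 * Y = 1 := by
      have : Y = (q - 1) * (1 + q) := by nlinarith
      rw [this]
      have h3 : s * (s * (1 + q)) = s := by rw [hs1, mul_one]
      linear_combination (q - 1) * h3 + hs1
    linear_combination (ip xi y ^ 2) * h2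
  refine (measure_mono hsub).trans ?_
  have hdet' : LinearMap.det (Matrix.toLin' M) = q := by rw [LinearMap.det_toLin', hdet]
  rw [Measure.addHaar_preimage_linearMap volume (by rw [hdet']; exact hq0.ne'), hdet',
    Real.volume_pi_closedBall _ hr, Fintype.card_fin, ← ENNReal.ofReal_mul (abs_nonneg _)]
  apply ENNReal.ofReal_le_ofReal
  rw [abs_of_pos (by positivity), inv_mul_eq_div]

/-- finiteness of the integral of the volumes of the polars -/
lemma volume_Pk_le (hf : IsForms n f) {κ : ℝ} (hκ : 0 ≤ κ) : ∃ K : ℝ, ∀ y : Fin n → ℝ,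
    volume (Pk f κ y) ≤ ENNReal.ofReal (K * (1 + ‖y‖) ^ (-((n : ℝ) + 1))) := by
  obtain ⟨C, hC0, hC⟩ := exists_bound_gm hf
  refine ⟨(2 * (C + κ)) ^ n * 2 ^ (n + 1), fun y => ?_⟩
  have hCk : 0 ≤ C + κ := by linarith
  set Y := ip y y with hY
  have hY0 : 0 ≤ Y := ip_self_nonneg y
  set q := Real.sqrt (1 + Y) with hq
  have hq0 : 0 < q := Real.sqrt_pos.2 (by linarith)
  have hqq : q ^ 2 = 1 + Y := Real.sq_sqrt (by linarith)
  have hsub : Pk f κ y ⊆ {xi : Fin n → ℝ | ip xi xi + ip xi y ^ 2 ≤ ((C + κ) / q) ^ 2} := by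
    intro xi hxi
    rw [mem_ofPred_eq, div_pow, hqq]
    apply mem_ellipsoid
    intro w
    have h1 := hxi w
    have h2 := hC (pt y) (tv w) (pt_ne y)
    nlinarith
  refine (measure_mono hsub).trans ((volume_ellipsoid_le _ (by positivity) y).trans ?_)
  apply ENNReal.ofReal_le_ofReal
  rw [← hY, ← hq]
  have hny : ‖y‖ ^ 2 ≤ Y := by
    have := norm_le_sqrt_ip y
    calc ‖y‖ ^ 2 ≤ (Real.sqrt (ip y y)) ^ 2 := pow_le_pow_left₀ (norm_nonneg _) this 2
      _ = Y := Real.sq_sqrt hY0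
  have hq1 : (1 + ‖y‖) / 2 ≤ q := by
    apply Real.le_sqrt_of_sq_le
    nlinarith [sq_nonneg (‖y‖ - 1)]
  have hb : 0 < 1 + ‖y‖ := by positivity
  have h1 : (2 * ((C + κ) / q)) ^ n / q = (2 * (C + κ)) ^ n * (q ^ (n + 1))⁻¹ := by
    rw [pow_succ, mul_pow, mul_pow, div_pow]; field_simp
  rw [h1, mul_assoc]
  apply mul_le_mul_of_nonneg_left _ (by positivity)
  have h2 : (1 + ‖y‖) ^ (-((n : ℝ) + 1)) = ((1 + ‖y‖) ^ (n + 1))⁻¹ := by
    rw [Real.rpow_neg hb.le]
    congr 1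
    have : ((n : ℝ) + 1) = ((n + 1 : ℕ) : ℝ) := by push_cast; ring
    rw [this, Real.rpow_natCast]
  rw [h2]
  have h3 : ((1 + ‖y‖) / 2) ^ (n + 1) ≤ q ^ (n + 1) := pow_le_pow_left₀ (by positivity) hq1 _
  have h4 : (q ^ (n + 1))⁻¹ ≤ (((1 + ‖y‖) / 2) ^ (n + 1))⁻¹ := inv_anti₀ (by positivity) h3
  refine h4.trans (le_of_eq ?_)
  rw [div_pow, inv_div, div_eq_mul_inv]

lemma lintegral_Pk_lt_top (hf : IsForms n f) {κ : ℝ} (hκ : 0 ≤ κ) :
    ∫⁻ y : Fin n → ℝ, volume (Pk f κ y) < ⊤ := by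
  obtain ⟨K, hK⟩ := volume_Pk_le hf hκ
  have hfin : ∫⁻ y : Fin n → ℝ, ENNReal.ofReal ((1 + ‖y‖) ^ (-((n : ℝ) + 1))) < ⊤ := by
    apply finite_integral_one_add_norm
    rw [Module.finrank_fin_fun]; linarith
  refine lt_of_le_of_lt (lintegral_mono hK) ?_
  have h1 : ∀ y : Fin n → ℝ, ENNReal.ofReal (K * (1 + ‖y‖) ^ (-((n : ℝ) + 1)))
      ≤ ENNReal.ofReal |K| * ENNReal.ofReal ((1 + ‖y‖) ^ (-((n : ℝ) + 1))) := by
    intro y
    rw [← ENNReal.ofReal_mul (abs_nonneg K)]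
    apply ENNReal.ofReal_le_ofReal
    exact mul_le_mul_of_nonneg_right (le_abs_self K) (by positivity)
  refine lt_of_le_of_lt (lintegral_mono h1) ?_
  rw [lintegral_const_mul' _ _ ENNReal.ofReal_ne_top]
  exact ENNReal.mul_lt_top ENNReal.ofReal_lt_top hfin

lemma volume_Pk_lt_top (hf : IsForms n f) {κ : ℝ} (hκ : 0 ≤ κ) (y : Fin n → ℝ) :
    volume (Pk f κ y) < ⊤ := by
  obtain ⟨K, hK⟩ := volume_Pk_le hf hκ
  exact lt_of_le_of_lt (hK y) ENNReal.ofReal_lt_top

/-- monotone convergence of the polar volumes -/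
theorem exists_kappa (hf : IsForms n f) {b : ℝ≥0∞}
    (hvol : ∫⁻ y : Fin n → ℝ, volume (polarForms f y) < b) :
    ∃ κ : ℝ, 0 < κ ∧ ∫⁻ y : Fin n → ℝ, volume (Pk f κ y) < b := by
  have hpos : ∀ j : ℕ, (0 : ℝ) < 1 / ((j : ℝ) + 1) := fun j => by positivity
  have hanti : ∀ i j : ℕ, i ≤ j → (1 : ℝ) / ((j : ℝ) + 1) ≤ 1 / ((i : ℝ) + 1) := by
    intro i j hij
    apply one_div_le_one_div_of_le (by positivity)
    have : (i : ℝ) ≤ j := by exact_mod_cast hij
    linarith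
  have h1 : ∫⁻ y : Fin n → ℝ, ⨅ j : ℕ, volume (Pk f (1 / ((j : ℝ) + 1)) y)
      = ⨅ j : ℕ, ∫⁻ y : Fin n → ℝ, volume (Pk f (1 / ((j : ℝ) + 1)) y) := by
    apply lintegral_iInf (fun j => measurable_vol_Pk hf _)
    · intro i j hij y
      exact measure_mono (Pk_mono (hanti i j hij) y)
    · exact (lintegral_Pk_lt_top hf (hpos 0).le).ne
  have h2 : ∫⁻ y : Fin n → ℝ, ⨅ j : ℕ, volume (Pk f (1 / ((j : ℝ) + 1)) y)
      ≤ ∫⁻ y : Fin n → ℝ, volume (polarForms f y) := by
    apply lintegral_mono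
    intro y
    have h3 : volume (⋂ j : ℕ, Pk f (1 / ((j : ℝ) + 1)) y)
        = ⨅ j : ℕ, volume (Pk f (1 / ((j : ℝ) + 1)) y) := by
      apply Antitone.measure_iInter
      · intro i j hij; exact Pk_mono (hanti i j hij) y
      · intro j; exact (measurableSet_Pk hf _ y).nullMeasurableSet
      · exact ⟨0, (volume_Pk_lt_top hf (hpos 0).le y).ne⟩
    show ⨅ j : ℕ, volume (Pk f (1 / ((j : ℝ) + 1)) y) ≤ volume (polarForms f y)
    rw [← h3]
    exact measure_mono (iInter_Pk y)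
  have h4 : ⨅ j : ℕ, ∫⁻ y : Fin n → ℝ, volume (Pk f (1 / ((j : ℝ) + 1)) y) < b := by
    rw [← h1]; exact lt_of_le_of_lt h2 hvol
  obtain ⟨j, hj⟩ := iInf_lt_iff.1 h4
  exact ⟨_, hpos j, hj⟩

/-- the polar of the smoothed maximum -/
lemma polar_FF_subset {p k : ℝ} (hp : 1 ≤ p) (hk : 0 < k) (y : Fin n → ℝ) :
    {xi : Fin n → ℝ | ∀ w : Fin n → ℝ, FF f p k (Fin.cons 1 y : Fin (n + 1) → ℝ)
        (Fin.cons 0 w : Fin (n + 1) → ℝ) ≤ 1 → ∑ i, xi i * w i ≤ 1}
      ⊆ ((Fintype.card (Option ι) : ℝ) ^ (1 / p)) • Pk f (2 * k) y := by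
  intro xi hxi
  have hN : (1 : ℝ) ≤ (Fintype.card (Option ι) : ℝ) := by exact_mod_cast Fintype.card_pos
  set c := (Fintype.card (Option ι) : ℝ) ^ (1 / p) with hc
  have hc0 : 0 < c := Real.rpow_pos_of_pos (by linarith) _
  rw [mem_smul_set_iff_inv_smul_mem₀ hc0.ne']
  intro w
  have h1 : ∑ j, (c⁻¹ • xi) j * w j = c⁻¹ * ∑ j, xi j * w j := by
    rw [Finset.mul_sum]
    exact Finset.sum_congr rfl fun j _ => by simp only [Pi.smul_apply, smul_eq_mul]; ring
  rw [h1]
  have h2 : ∑ j, xi j * w j ≤ FF f p k (pt y) (tv w) := by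
    by_cases hw : w = 0
    · subst hw
      simp only [Pi.zero_apply, mul_zero, Finset.sum_const_zero]
      exact FF_nonneg hk.le _ _
    · have hF : 0 < FF f p k (pt y) (tv w) := FF_pos hk (lin_indep_pt_tv y hw)
      set F := FF f p k (pt y) (tv w) with hFdef
      have h3 := hxi (F⁻¹ • w) (by
        have h4 : (Fin.cons 0 (F⁻¹ • w) : Fin (n + 1) → ℝ) = F⁻¹ • tv w := by
          funext i
          refine Fin.cases ?_ (fun j => ?_) i
          · simp [tv]
          · simp [tv]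
        rw [h4]
        have h5 := FF_homog (f := f) (k := k) hp (pt y) (tv w) (s := F⁻¹) (by positivity)
        show FF f p k (pt y) (F⁻¹ • tv w) ≤ 1
        rw [h5, ← hFdef, inv_mul_cancel₀ hF.ne'])
      have h6 : ∑ i, xi i * (F⁻¹ • w) i = F⁻¹ * ∑ i, xi i * w i := by
        rw [Finset.mul_sum]
        exact Finset.sum_congr rfl fun j _ => by simp only [Pi.smul_apply, smul_eq_mul]; ring
      rw [h6] at h3
      rw [inv_mul_le_iff₀ hF, mul_one] at h3
      exact h3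
  have h7 := FF_le (f := f) hp hk.le (pt y) (tv w)
  rw [inv_mul_le_iff₀ hc0]
  exact h2.trans h7

/-- The reduction: it suffices to give a finite family of smooth `1`-forms. -/
theorem reduction (hf : IsForms n f) (hsys : SysGeOne n f) {b : ℝ≥0∞}
    (hvol : ∫⁻ y : Fin n → ℝ, volume (polarForms f y) < b) :
    ∃ F : (Fin (n + 1) → ℝ) → (Fin (n + 1) → ℝ) → ℝ, IsFinslerRP n F ∧
      (∃ e > 0, ∀ x w w', x ≠ 0 →
        F x (w + w') - e * rho x (w + w') ≤ (F x w - e * rho x w) + (F x w' - e * rho x w')) ∧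
      (∀ c, IsOddLoop n c → 1 ≤ len F c) ∧ polarVol F < b := by
  obtain ⟨κ, hκ, hlt⟩ := exists_kappa hf hvol
  have hk : 0 < κ / 2 := by positivity
  have hN : (1 : ℝ) ≤ (Fintype.card (Option ι) : ℝ) := by exact_mod_cast Fintype.card_pos
  -- choose p
  obtain ⟨p, hp1, hp⟩ : ∃ p : ℝ, 1 ≤ p ∧
      ENNReal.ofReal (((Fintype.card (Option ι) : ℝ) ^ (1 / p)) ^ n)
        * ∫⁻ y : Fin n → ℝ, volume (Pk f κ y) < b := by
    have ht : Filter.Tendsto (fun p : ℝ => ENNReal.ofReal (((Fintype.card (Option ι) : ℝ) ^ (1 / p)) ^ n)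
        * ∫⁻ y : Fin n → ℝ, volume (Pk f κ y)) Filter.atTop
        (nhds (ENNReal.ofReal (((Fintype.card (Option ι) : ℝ) ^ (0 : ℝ)) ^ n)
          * ∫⁻ y : Fin n → ℝ, volume (Pk f κ y))) := by
      apply ENNReal.Tendsto.mul_const
      · apply ENNReal.tendsto_ofReal
        apply Filter.Tendsto.pow
        have hcont : Continuous (fun x : ℝ => (Fintype.card (Option ι) : ℝ) ^ x) :=
          Real.continuous_const_rpow (by linarith : (Fintype.card (Option ι) : ℝ) ≠ 0)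
        have h0 : Filter.Tendsto (fun p : ℝ => 1 / p) Filter.atTop (nhds 0) := by
          simpa using tendsto_inv_atTop_zero (𝕜 := ℝ)
        exact (hcont.tendsto 0).comp h0
      · right; exact hlt.ne_top
    rw [Real.rpow_zero, one_pow, ENNReal.ofReal_one, one_mul] at ht
    obtain ⟨p, hp⟩ := ((ht.eventually (gt_mem_nhds hlt)).and (Filter.eventually_ge_atTop 1)).exists
    exact ⟨p, hp.2, hp.1⟩
  refine ⟨FF f p (κ / 2), isFinslerRP_FF hf hp1 hk, ⟨κ / 2, hk, ?_⟩, ?_, ?_⟩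
  · intro x w w' hx
    exact FF_sub_add_le hp1 hk.le hx w w'
  · intro c hc
    have hmaps : MapsTo (fun t : ℝ => (c t, deriv c t)) (Icc (0 : ℝ) 1)
        {q : (Fin (n + 1) → ℝ) × (Fin (n + 1) → ℝ) | q.1 ≠ 0} := fun t ht => hc.ne_zero t ht
    have h2 : ContinuousOn (fun t : ℝ => (c t, deriv c t)) (Icc 0 1) :=
      (hc.smooth.continuous.prodMk (hc.smooth.continuous_deriv le_rfl)).continuousOn
    have h3 : ContinuousOn (fun t : ℝ => FF f p (κ / 2) (c t) (deriv c t)) (Icc 0 1) :=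
      ContinuousOn.comp (g := fun q : (Fin (n + 1) → ℝ) × (Fin (n + 1) → ℝ) =>
        FF f p (κ / 2) q.1 q.2) (f := fun t : ℝ => (c t, deriv c t))
        (continuousOn_FF (f := f) (k := κ / 2) hf hp1) h2 hmaps
    exact hsys c hc (fun t => FF f p (κ / 2) (c t) (deriv c t)) h3
      (fun t _ => FF_nonneg hk.le _ _) (fun t _ i => le_FF hp1 hk.le i _ _)
  · unfold polarVol
    refine lt_of_le_of_lt ?_ hp
    rw [← lintegral_const_mul' _ _ ENNReal.ofReal_ne_top]
    apply lintegral_mono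
    intro y
    refine (measure_mono (polar_FF_subset hp1 hk y)).trans ?_
    rw [Measure.addHaar_smul, Module.finrank_fin_fun, abs_of_pos (by positivity),
      show 2 * (κ / 2) = κ by ring]

end Pool.Agent.Lib_helper91.RP
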