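import Mathlib

/-! Polar of a composition with a linear map. -/

namespace Pool.Agent.Lib_helper91.RP

open MeasureTheory Set
open scoped ENNReal Matrix

theorem polar_comp {k : ℕ} (g : (Fin k → ℝ) → ℝ) (D : (Fin k → ℝ) →L[ℝ] (Fin k → ℝ)) :
    volume {xi : Fin k → ℝ | ∀ w : Fin k → ℝ, ∑ i, xi i * w i ≤ g (D w)}
      ≤ ENNReal.ofReal |D.det| * volume {xi : Fin k → ℝ | ∀ v : Fin k → ℝ, ∑ i, xi i * v i ≤ g v} := by
  have hdet : D.det = LinearMap.det (D : (Fin k → ℝ) →ₗ[ℝ] (Fin k → ℝ)) := rfl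
  by_cases h : D.det = 0
  · -- degenerate case
    obtain ⟨w, hw0, hw⟩ : ∃ w : Fin k → ℝ, w ≠ 0 ∧ D w = 0 := by
      have hbot := (LinearMap.bot_lt_ker_of_det_eq_zero (hdet ▸ h : LinearMap.det
        (D : (Fin k → ℝ) →ₗ[ℝ] (Fin k → ℝ)) = 0))
      obtain ⟨w, hw, hw0⟩ := Submodule.exists_mem_ne_zero_of_ne_bot hbot.ne'
      exact ⟨w, hw0, hw⟩
    -- the linear functional xi ↦ ∑ xi i * w i
    let L : (Fin k → ℝ) →ₗ[ℝ] ℝ :=
      { toFun := fun xi => ∑ i, xi i * w i
        map_add' := fun a b => by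
          simp only [Pi.add_apply, add_mul, Finset.sum_add_distrib]
        map_smul' := fun a b => by
          simp only [Pi.smul_apply, smul_eq_mul, RingHom.id_apply, Finset.mul_sum, mul_assoc] }
    have hsub : {xi : Fin k → ℝ | ∀ w : Fin k → ℝ, ∑ i, xi i * w i ≤ g (D w)}
        ⊆ (LinearMap.ker L : Set (Fin k → ℝ)) := by
      intro xi hxi
      have h1 : ∀ t : ℝ, t * L xi ≤ g 0 := by
        intro t
        have h2 := hxi (t • w)
        rw [map_smul, hw, smul_zero] at h2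
        refine le_trans (le_of_eq ?_) h2
        show t * ∑ i, xi i * w i = ∑ i, xi i * (t • w) i
        rw [Finset.mul_sum]
        exact Finset.sum_congr rfl fun i _ => by simp only [Pi.smul_apply, smul_eq_mul]; ring
      show L xi = 0
      by_contra hne
      have h3 := h1 ((|g 0| + 1) / L xi)
      rw [div_mul_cancel₀ _ hne] at h3
      have := le_abs_self (g 0)
      linarith
    have hne : LinearMap.ker L ≠ ⊤ := by
      intro htop
      apply hw0
      have hL : L w = 0 := by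
        have : w ∈ LinearMap.ker L := by rw [htop]; trivial
        exact this
      funext i
      have hs : ∑ i, w i * w i = 0 := hL
      have := (Finset.sum_eq_zero_iff_of_nonneg (fun i _ => mul_self_nonneg (w i))).1 hs i
        (Finset.mem_univ i)
      simpa using mul_self_eq_zero.1 this
    have h0 : volume (LinearMap.ker L : Set (Fin k → ℝ)) = 0 :=
      Measure.addHaar_submodule volume _ hne
    rw [measure_mono_null hsub h0]
    exact zero_le
  · -- invertible case
    have hdet0 : LinearMap.det (D : (Fin k → ℝ) →ₗ[ℝ] (Fin k → ℝ)) ≠ 0 := by rw [← hdet]; exact h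
    let e := LinearEquiv.ofIsUnitDet (v := Pi.basisFun ℝ (Fin k)) (v' := Pi.basisFun ℝ (Fin k))
      (f := (D : (Fin k → ℝ) →ₗ[ℝ] (Fin k → ℝ)))
      (by rw [LinearMap.det_toMatrix]; exact isUnit_iff_ne_zero.2 hdet0)
    have he : ∀ x, e x = D x := fun x => rfl
    let N : Matrix (Fin k) (Fin k) ℝ := LinearMap.toMatrix' (e.symm : (Fin k → ℝ) →ₗ[ℝ] (Fin k → ℝ))
    have hN : ∀ v, N.mulVec v = e.symm v := by
      intro v
      show (LinearMap.toMatrix' (e.symm : (Fin k → ℝ) →ₗ[ℝ] (Fin k → ℝ))).mulVec v = _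
      rw [LinearMap.toMatrix'_mulVec]; rfl
    have hdetN : N.det = (D.det)⁻¹ := by
      have h1 : N.det = LinearMap.det (e.symm : (Fin k → ℝ) →ₗ[ℝ] (Fin k → ℝ)) := by
        rw [← LinearMap.det_toMatrix' (e.symm : (Fin k → ℝ) →ₗ[ℝ] (Fin k → ℝ))]
      rw [h1, hdet]
      have h2 : LinearMap.det (e : (Fin k → ℝ) →ₗ[ℝ] (Fin k → ℝ))
          * LinearMap.det (e.symm : (Fin k → ℝ) →ₗ[ℝ] (Fin k → ℝ)) = 1 := by
        exact LinearEquiv.det_mul_det_symm e
      have h3 : LinearMap.det (e : (Fin k → ℝ) →ₗ[ℝ] (Fin k → ℝ))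
          = LinearMap.det (D : (Fin k → ℝ) →ₗ[ℝ] (Fin k → ℝ)) := rfl
      rw [h3] at h2
      exact eq_inv_of_mul_eq_one_right h2
    have hpair : ∀ xi v : Fin k → ℝ, ∑ i, (Nᵀ.mulVec xi) i * v i = ∑ i, xi i * (e.symm v) i := by
      intro xi v
      have h1 : (Nᵀ.mulVec xi) ⬝ᵥ v = xi ⬝ᵥ (N.mulVec v) := by
        rw [Matrix.mulVec_transpose, Matrix.dotProduct_mulVec]
      rw [hN] at h1
      exact h1
    have heq : {xi : Fin k → ℝ | ∀ w : Fin k → ℝ, ∑ i, xi i * w i ≤ g (D w)}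
        = (Matrix.toLin' Nᵀ) ⁻¹' {xi : Fin k → ℝ | ∀ v : Fin k → ℝ, ∑ i, xi i * v i ≤ g v} := by
      ext xi
      constructor
      · intro hxi v
        rw [Matrix.toLin'_apply, hpair]
        have := hxi (e.symm v)
        rwa [← he, LinearEquiv.apply_symm_apply] at this
      · intro hxi w
        have := hxi (D w)
        rw [Matrix.toLin'_apply, hpair, ← he, LinearEquiv.symm_apply_apply] at this
        exact this
    have hdT : LinearMap.det (Matrix.toLin' Nᵀ) = (D.det)⁻¹ := by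
      rw [LinearMap.det_toLin', Matrix.det_transpose, hdetN]
    rw [heq, Measure.addHaar_preimage_linearMap volume (by rw [hdT]; exact inv_ne_zero h), hdT,
      inv_inv]

end Pool.Agent.Lib_helper91.RP
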