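import Mathlib

/-! Two elementary volumes in `ℝ^5` (modules V1, V2 of the Finsler `RP^n` project). -/

namespace Pool.Agent.Lib_helper91.RP

open MeasureTheory Set
open scoped ENNReal

lemma lintegral_cons {k : ℕ} (F : (Fin (k + 1) → ℝ) → ℝ≥0∞) (hF : Measurable F) :
    ∫⁻ x, F x = ∫⁻ a : ℝ, ∫⁻ y : Fin k → ℝ, F (Fin.cons a y : Fin (k + 1) → ℝ) := by
  have h := (volume_preserving_piFinSuccAbove (fun _ : Fin (k + 1) => ℝ) 0).symm
  have h1 := h.lintegral_comp hF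
  rw [← h1]
  have hm : Measurable fun q : ℝ × (Fin k → ℝ) =>
      F ((MeasurableEquiv.piFinSuccAbove (fun _ : Fin (k + 1) => ℝ) 0).symm q) :=
    hF.comp (MeasurableEquiv.measurable _)
  have h2 := lintegral_prod (μ := (volume : Measure ℝ)) (ν := (volume : Measure (Fin k → ℝ)))
    (fun q : ℝ × (Fin k → ℝ) =>
      F ((MeasurableEquiv.piFinSuccAbove (fun _ : Fin (k + 1) => ℝ) 0).symm q)) hm.aemeasurable
  refine h2.trans ?_
  apply lintegral_congr
  intro a
  apply lintegral_congr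
  intro y
  congr 1
  ext i
  refine Fin.cases ?_ (fun j => ?_) i <;> simp [MeasurableEquiv.piFinSuccAbove]

lemma volume_cons {k : ℕ} (S : Set (Fin (k + 1) → ℝ)) (hS : MeasurableSet S) :
    volume S = ∫⁻ a : ℝ, volume {y : Fin k → ℝ | (Fin.cons a y : Fin (k + 1) → ℝ) ∈ S} := by
  have hcons : ∀ a : ℝ, Measurable (fun y : Fin k → ℝ => (Fin.cons a y : Fin (k + 1) → ℝ)) := by
    intro a
    rw [measurable_pi_iff]
    intro i
    refine Fin.cases ?_ (fun j => ?_) i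
    · simp only [Fin.cons_zero]; exact measurable_const
    · simp only [Fin.cons_succ]; exact measurable_pi_apply j
  rw [← lintegral_indicator_one hS, lintegral_cons _ (measurable_one.indicator hS)]
  apply lintegral_congr
  intro a
  have hS' : MeasurableSet {y : Fin k → ℝ | (Fin.cons a y : Fin (k + 1) → ℝ) ∈ S} := hcons a hS
  rw [← lintegral_indicator_one hS']
  rfl

lemma int1 {j : ℕ} (hj : j ≠ 0) (c : ℝ) :
    ∫⁻ b in Ici (0 : ℝ), ENNReal.ofReal (c - b) ^ j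
      = ENNReal.ofReal c ^ (j + 1) * ENNReal.ofReal (1 / ((j : ℝ) + 1)) := by
  rcases le_or_gt c 0 with hc | hc
  · rw [ENNReal.ofReal_of_nonpos hc, zero_pow (Nat.succ_ne_zero j), zero_mul]
    rw [setLIntegral_congr_fun (g := fun _ => 0) measurableSet_Ici]
    · simp
    · intro b hb
      have : c - b ≤ 0 := by have := mem_Ici.1 hb; linarith
      simp only [ENNReal.ofReal_of_nonpos this, zero_pow hj]
  · have h1 : ∫⁻ b in Ici (0 : ℝ), ENNReal.ofReal (c - b) ^ j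
        = ∫⁻ b in Icc (0 : ℝ) c, ENNReal.ofReal (c - b) ^ j := by
      rw [← Icc_union_Ioi_eq_Ici hc.le, lintegral_union measurableSet_Ioi]
      · have : ∫⁻ b in Ioi c, ENNReal.ofReal (c - b) ^ j = 0 := by
          rw [setLIntegral_congr_fun (g := fun _ => 0) measurableSet_Ioi]
          · simp
          · intro b hb
            have : c - b ≤ 0 := by have := mem_Ioi.1 hb; linarith
            simp only [ENNReal.ofReal_of_nonpos this, zero_pow hj]
        rw [this, add_zero]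
      · rw [Set.disjoint_left]
        intro b hb hb'
        exact absurd hb.2 (not_le.2 hb')
    have h2 : ∫⁻ b in Icc (0 : ℝ) c, ENNReal.ofReal (c - b) ^ j
        = ∫⁻ b in Ioc (0 : ℝ) c, ENNReal.ofReal ((c - b) ^ j) := by
      rw [setLIntegral_congr (Ioc_ae_eq_Icc (a := (0 : ℝ)) (b := c)).symm]
      apply setLIntegral_congr_fun measurableSet_Ioc
      intro b hb
      simp only
      rw [ENNReal.ofReal_pow (by linarith [hb.2])]
    rw [h1, h2, ← ofReal_integral_eq_lintegral_ofReal]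
    · rw [← intervalIntegral.integral_of_le hc.le,
        intervalIntegral.integral_comp_sub_left (fun x => x ^ j) c, integral_pow]
      rw [sub_self, sub_zero, zero_pow (Nat.succ_ne_zero j), sub_zero, div_eq_mul_one_div,
        ENNReal.ofReal_mul (by positivity), ENNReal.ofReal_pow hc.le]
    · exact (Continuous.integrableOn_Ioc (by fun_prop))
    · rw [Filter.EventuallyLE, ae_restrict_iff' measurableSet_Ioc]
      exact Filter.Eventually.of_forall fun b hb => by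
        simp only [Pi.zero_apply]
        have : 0 ≤ c - b := by linarith [hb.2]
        positivity

lemma int2 {j : ℕ} (hj : j ≠ 0) (c : ℝ) :
    ∫⁻ a in Ici (0 : ℝ), ∫⁻ b in Ici (0 : ℝ), ENNReal.ofReal (c - a - b) ^ j
      = ENNReal.ofReal c ^ (j + 2) * ENNReal.ofReal (1 / ((j : ℝ) + 2))
          * ENNReal.ofReal (1 / ((j : ℝ) + 1)) := by
  have h1 : ∀ a : ℝ, ∫⁻ b in Ici (0 : ℝ), ENNReal.ofReal (c - a - b) ^ j
      = ENNReal.ofReal (c - a) ^ (j + 1) * ENNReal.ofReal (1 / ((j : ℝ) + 1)) := fun a => int1 hj _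
  simp only [h1]
  rw [lintegral_mul_const' _ _ ENNReal.ofReal_ne_top, int1 (Nat.succ_ne_zero j)]
  congr 3
  push_cast
  ring_nf

/-- the gauge of the triangle -/
noncomputable def tau (a b : ℝ) : ℝ := max (a + b) (max (a - 2 * b) (b - 2 * a))

lemma H_le (a b : ℝ) : ENNReal.ofReal (1 - tau a b) ^ 3
    ≤ (Ici (0 : ℝ)).indicator (fun a => (Ici (0 : ℝ)).indicator
        (fun b => ENNReal.ofReal (1 - a - b) ^ 3) b) a
      + ((Ici (0 : ℝ)).indicator (fun a' => (Ici (0 : ℝ)).indicator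
        (fun x => ENNReal.ofReal (1 - a' - x) ^ 3) (b - a)) (-a)
      + (Ici (0 : ℝ)).indicator (fun b' => (Ici (0 : ℝ)).indicator
        (fun x => ENNReal.ofReal (1 - b' - x) ^ 3) (a - b)) (-b)) := by
  by_cases h1 : 0 ≤ a ∧ 0 ≤ b
  · refine le_trans ?_ le_self_add
    rw [indicator_of_mem (by exact h1.1), indicator_of_mem (by exact h1.2)]
    apply pow_le_pow_left₀ (zero_le)
    apply ENNReal.ofReal_le_ofReal
    have : a + b ≤ tau a b := le_max_left _ _
    linarith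
  · refine le_trans ?_ le_add_self
    by_cases h2 : a ≤ 0 ∧ a ≤ b
    · refine le_trans ?_ le_self_add
      rw [indicator_of_mem (by exact neg_nonneg.2 h2.1), indicator_of_mem (by exact sub_nonneg.2 h2.2)]
      apply pow_le_pow_left₀ (zero_le)
      apply ENNReal.ofReal_le_ofReal
      have : b - 2 * a ≤ tau a b := (le_max_right _ _).trans (le_max_right _ _)
      linarith
    · refine le_trans ?_ le_add_self
      have hb : b ≤ 0 ∧ b ≤ a := by
        by_contra h3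
        rw [not_and_or] at h1 h2 h3
        rcases h1 with h1 | h1 <;> rcases h2 with h2 | h2 <;> rcases h3 with h3 | h3 <;>
          simp only [not_le] at h1 h2 h3 <;> linarith
      rw [indicator_of_mem (by exact neg_nonneg.2 hb.1), indicator_of_mem (by exact sub_nonneg.2 hb.2)]
      apply pow_le_pow_left₀ (zero_le)
      apply ENNReal.ofReal_le_ofReal
      have : a - 2 * b ≤ tau a b := (le_max_left _ _).trans (le_max_right _ _)
      linarith

/-- the basic integral -/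
lemma int_base : ∫⁻ a : ℝ, ∫⁻ b : ℝ, (Ici (0 : ℝ)).indicator (fun a => (Ici (0 : ℝ)).indicator
        (fun b => ENNReal.ofReal (1 - a - b) ^ 3) b) a = ENNReal.ofReal (1 / 20) := by
  have h1 : ∀ a : ℝ, ∫⁻ b : ℝ, (Ici (0 : ℝ)).indicator (fun a => (Ici (0 : ℝ)).indicator
        (fun b => ENNReal.ofReal (1 - a - b) ^ 3) b) a
      = (Ici (0 : ℝ)).indicator (fun a => ∫⁻ b in Ici (0 : ℝ), ENNReal.ofReal (1 - a - b) ^ 3) a := by
    intro a
    by_cases ha : a ∈ Ici (0 : ℝ)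
    · simp only [indicator_of_mem ha]
      rw [lintegral_indicator measurableSet_Ici]
    · simp only [indicator_of_notMem ha, lintegral_zero]
  simp only [h1]
  rw [lintegral_indicator measurableSet_Ici, int2 (by norm_num)]
  rw [ENNReal.ofReal_one, one_pow, one_mul, ← ENNReal.ofReal_mul (by norm_num)]
  norm_num

lemma measurable_ind : Measurable (fun q : ℝ × ℝ => (Ici (0 : ℝ)).indicator (fun a =>
    (Ici (0 : ℝ)).indicator (fun b => ENNReal.ofReal (1 - a - b) ^ 3) q.2) q.1) := by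
  have h1 : (fun q : ℝ × ℝ => (Ici (0 : ℝ)).indicator (fun a =>
      (Ici (0 : ℝ)).indicator (fun b => ENNReal.ofReal (1 - a - b) ^ 3) q.2) q.1)
      = ((Prod.fst ⁻¹' Ici (0 : ℝ)) ∩ (Prod.snd ⁻¹' Ici (0 : ℝ))).indicator
        (fun q : ℝ × ℝ => ENNReal.ofReal (1 - q.1 - q.2) ^ 3) := by
    ext q
    by_cases h1 : q.1 ∈ Ici (0 : ℝ)
    · by_cases h2 : q.2 ∈ Ici (0 : ℝ)
      · rw [indicator_of_mem h1, indicator_of_mem h2, indicator_of_mem]
        exact ⟨h1, h2⟩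
      · rw [indicator_of_mem h1, indicator_of_notMem h2, indicator_of_notMem]
        exact fun h => h2 h.2
    · rw [indicator_of_notMem h1, indicator_of_notMem]
      exact fun h => h1 h.1
  rw [h1]
  apply Measurable.indicator
  · fun_prop
  · exact (measurable_fst measurableSet_Ici).inter (measurable_snd measurableSet_Ici)

/-- `B a b` is the base function -/
noncomputable def Bf (a b : ℝ) : ℝ≥0∞ := (Ici (0 : ℝ)).indicator (fun a =>
    (Ici (0 : ℝ)).indicator (fun b => ENNReal.ofReal (1 - a - b) ^ 3) b) a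

lemma int_tau : ∫⁻ a : ℝ, ∫⁻ b : ℝ, ENNReal.ofReal (1 - tau a b) ^ 3 ≤ ENNReal.ofReal (3 / 20) := by
  have hB : ∫⁻ a : ℝ, ∫⁻ b : ℝ, Bf a b = ENNReal.ofReal (1 / 20) := int_base
  have hm : Measurable (fun q : ℝ × ℝ => Bf q.1 q.2) := measurable_ind
  have hle : ∀ a b : ℝ, ENNReal.ofReal (1 - tau a b) ^ 3
      ≤ Bf a b + (Bf (-a) (b - a) + Bf (-b) (a - b)) := H_le
  have hm1 : ∀ a : ℝ, Measurable (fun b => Bf a b) := fun a =>
    hm.comp (measurable_const.prodMk measurable_id)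
  have hm2 : Measurable (fun q : ℝ × ℝ => Bf (-q.1) (q.2 - q.1)) :=
    hm.comp (measurable_fst.neg.prodMk (measurable_snd.sub measurable_fst))
  have hm3 : Measurable (fun q : ℝ × ℝ => Bf (-q.2) (q.1 - q.2)) :=
    hm.comp (measurable_snd.neg.prodMk (measurable_fst.sub measurable_snd))
  have hi2 : ∫⁻ a : ℝ, ∫⁻ b : ℝ, Bf (-a) (b - a) = ENNReal.ofReal (1 / 20) := by
    have : ∀ a : ℝ, ∫⁻ b : ℝ, Bf (-a) (b - a) = ∫⁻ b : ℝ, Bf (-a) b := fun a =>
      lintegral_sub_right_eq_self (fun b => Bf (-a) b) a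
    simp only [this]
    rw [lintegral_neg_eq_self (fun a => ∫⁻ b : ℝ, Bf a b), hB]
  have hi3 : ∫⁻ a : ℝ, ∫⁻ b : ℝ, Bf (-b) (a - b) = ENNReal.ofReal (1 / 20) := by
    rw [lintegral_lintegral_swap hm3.aemeasurable]
    exact hi2
  calc ∫⁻ a : ℝ, ∫⁻ b : ℝ, ENNReal.ofReal (1 - tau a b) ^ 3
      ≤ ∫⁻ a : ℝ, ∫⁻ b : ℝ, (Bf a b + (Bf (-a) (b - a) + Bf (-b) (a - b))) :=
        lintegral_mono fun a => lintegral_mono fun b => hle a b
    _ = ∫⁻ a : ℝ, (∫⁻ b : ℝ, Bf a b) + ((∫⁻ b : ℝ, Bf (-a) (b - a)) + ∫⁻ b : ℝ, Bf (-b) (a - b)) := by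
        apply lintegral_congr
        intro a
        rw [lintegral_add_left (hm1 a), lintegral_add_left]
        exact hm2.comp (measurable_const.prodMk measurable_id)
    _ = ENNReal.ofReal (1 / 20) + (ENNReal.ofReal (1 / 20) + ENNReal.ofReal (1 / 20)) := by
        rw [lintegral_add_left hm.lintegral_prod_right', lintegral_add_left hm2.lintegral_prod_right',
          hB, hi2, hi3]
    _ = ENNReal.ofReal (3 / 20) := by
        rw [← ENNReal.ofReal_add (by norm_num) (by norm_num),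
          ← ENNReal.ofReal_add (by norm_num) (by norm_num)]
        norm_num

/-- V1 -/
theorem vol_K : volume {xi : Fin 5 → ℝ | ∀ v : Fin 5 → ℝ, ∑ i, xi i * v i
    ≤ max (max (v 0) (v 1)) (max (-(v 0) - v 1) ((|v 2| + |v 3| + |v 4|) / 2))}
    ≤ ENNReal.ofReal (3 / 20) := by
  set K' : Set (Fin 5 → ℝ) := {xi | (tau (xi 0) (xi 1) + 2 * |xi 2| ≤ 1) ∧
    (tau (xi 0) (xi 1) + 2 * |xi 3| ≤ 1) ∧ (tau (xi 0) (xi 1) + 2 * |xi 4| ≤ 1)} with hK'
  have hsub : {xi : Fin 5 → ℝ | ∀ v : Fin 5 → ℝ, ∑ i, xi i * v i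
    ≤ max (max (v 0) (v 1)) (max (-(v 0) - v 1) ((|v 2| + |v 3| + |v 4|) / 2))} ⊆ K' := by
    intro xi hxi
    have key : ∀ x y u2 u3 u4 : ℝ, xi 0 * x + xi 1 * y + xi 2 * u2 + xi 3 * u3 + xi 4 * u4
        ≤ max (max x y) (max (-x - y) ((|u2| + |u3| + |u4|) / 2)) := by
      intro x y u2 u3 u4
      have := hxi ![x, y, u2, u3, u4]
      simpa [Fin.sum_univ_five] using this
    have hv : ∀ x y : ℝ, (x = 1 ∧ y = 1) ∨ (x = 1 ∧ y = -2) ∨ (x = -2 ∧ y = 1) →
        ∀ u2 u3 u4 : ℝ, |u2| + |u3| + |u4| ≤ 2 →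
        xi 0 * x + xi 1 * y + xi 2 * u2 + xi 3 * u3 + xi 4 * u4 ≤ 1 := by
      intro x y hxy u2 u3 u4 hu
      refine (key x y u2 u3 u4).trans ?_
      rcases hxy with ⟨rfl, rfl⟩ | ⟨rfl, rfl⟩ | ⟨rfl, rfl⟩ <;>
        (refine max_le (max_le ?_ ?_) (max_le ?_ ?_)) <;> linarith
    have htau : ∀ s : ℝ, (xi 0 + xi 1 + s ≤ 1) → (xi 0 - 2 * xi 1 + s ≤ 1) →
        (xi 1 - 2 * xi 0 + s ≤ 1) → tau (xi 0) (xi 1) + s ≤ 1 := by
      intro s h1 h2 h3
      have : tau (xi 0) (xi 1) ≤ 1 - s := max_le (by linarith) (max_le (by linarith) (by linarith))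
      linarith
    refine ⟨?_, ?_, ?_⟩
    · rcases abs_cases (xi 2) with ⟨h, _⟩ | ⟨h, _⟩ <;> rw [h] <;> apply htau
      · have := hv 1 1 (Or.inl ⟨rfl, rfl⟩) 2 0 0 (by norm_num); linarith
      · have := hv 1 (-2) (Or.inr (Or.inl ⟨rfl, rfl⟩)) 2 0 0 (by norm_num); linarith
      · have := hv (-2) 1 (Or.inr (Or.inr ⟨rfl, rfl⟩)) 2 0 0 (by norm_num); linarith
      · have := hv 1 1 (Or.inl ⟨rfl, rfl⟩) (-2) 0 0 (by norm_num); linarith
      · have := hv 1 (-2) (Or.inr (Or.inl ⟨rfl, rfl⟩)) (-2) 0 0 (by norm_num); linarith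
      · have := hv (-2) 1 (Or.inr (Or.inr ⟨rfl, rfl⟩)) (-2) 0 0 (by norm_num); linarith
    · rcases abs_cases (xi 3) with ⟨h, _⟩ | ⟨h, _⟩ <;> rw [h] <;> apply htau
      · have := hv 1 1 (Or.inl ⟨rfl, rfl⟩) 0 2 0 (by norm_num); linarith
      · have := hv 1 (-2) (Or.inr (Or.inl ⟨rfl, rfl⟩)) 0 2 0 (by norm_num); linarith
      · have := hv (-2) 1 (Or.inr (Or.inr ⟨rfl, rfl⟩)) 0 2 0 (by norm_num); linarith
      · have := hv 1 1 (Or.inl ⟨rfl, rfl⟩) 0 (-2) 0 (by norm_num); linarith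
      · have := hv 1 (-2) (Or.inr (Or.inl ⟨rfl, rfl⟩)) 0 (-2) 0 (by norm_num); linarith
      · have := hv (-2) 1 (Or.inr (Or.inr ⟨rfl, rfl⟩)) 0 (-2) 0 (by norm_num); linarith
    · rcases abs_cases (xi 4) with ⟨h, _⟩ | ⟨h, _⟩ <;> rw [h] <;> apply htau
      · have := hv 1 1 (Or.inl ⟨rfl, rfl⟩) 0 0 2 (by norm_num); linarith
      · have := hv 1 (-2) (Or.inr (Or.inl ⟨rfl, rfl⟩)) 0 0 2 (by norm_num); linarith
      · have := hv (-2) 1 (Or.inr (Or.inr ⟨rfl, rfl⟩)) 0 0 2 (by norm_num); linarith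
      · have := hv 1 1 (Or.inl ⟨rfl, rfl⟩) 0 0 (-2) (by norm_num); linarith
      · have := hv 1 (-2) (Or.inr (Or.inl ⟨rfl, rfl⟩)) 0 0 (-2) (by norm_num); linarith
      · have := hv (-2) 1 (Or.inr (Or.inr ⟨rfl, rfl⟩)) 0 0 (-2) (by norm_num); linarith
  refine (measure_mono hsub).trans ?_
  have hmeas : MeasurableSet K' := by
    have hc : IsClosed K' := by
      have e : K' = {xi : Fin 5 → ℝ | tau (xi 0) (xi 1) + 2 * |xi 2| ≤ 1} ∩
          ({xi : Fin 5 → ℝ | tau (xi 0) (xi 1) + 2 * |xi 3| ≤ 1} ∩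
          {xi : Fin 5 → ℝ | tau (xi 0) (xi 1) + 2 * |xi 4| ≤ 1}) := rfl
      rw [e]
      unfold tau
      exact (isClosed_le (by fun_prop) continuous_const).inter
        ((isClosed_le (by fun_prop) continuous_const).inter
          (isClosed_le (by fun_prop) continuous_const))
    exact hc.measurableSet
  rw [volume_cons K' hmeas]
  refine le_trans (lintegral_mono fun a => ?_) int_tau
  have hcons : Continuous (fun y : Fin 4 → ℝ => (Fin.cons a y : Fin 5 → ℝ)) := by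
    apply continuous_pi
    intro i
    refine Fin.cases ?_ (fun j => ?_) i
    · simp only [Fin.cons_zero]; exact continuous_const
    · simp only [Fin.cons_succ]; exact continuous_apply j
  have hm2 : MeasurableSet {y : Fin 4 → ℝ | (Fin.cons a y : Fin 5 → ℝ) ∈ K'} :=
    hcons.measurable hmeas
  rw [volume_cons _ hm2]
  apply lintegral_mono
  intro b
  have hsub2 : {z : Fin 3 → ℝ | (Fin.cons b z : Fin 4 → ℝ) ∈
      {y : Fin 4 → ℝ | (Fin.cons a y : Fin 5 → ℝ) ∈ K'}}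
      ⊆ Icc (fun _ => -((1 - tau a b) / 2)) (fun _ => (1 - tau a b) / 2) := by
    intro z hz
    have hz' : (tau a b + 2 * |z 0| ≤ 1) ∧ (tau a b + 2 * |z 1| ≤ 1) ∧ (tau a b + 2 * |z 2| ≤ 1) := hz
    have hall : ∀ i : Fin 3, |z i| ≤ (1 - tau a b) / 2 := by
      intro i
      fin_cases i
      · have := hz'.1; simp only [Fin.zero_eta]; linarith
      · have := hz'.2.1; simp only [Fin.mk_one]; linarith
      · have := hz'.2.2; simp only [Fin.reduceFinMk]; linarith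
    exact ⟨fun i => (abs_le.1 (hall i)).1, fun i => (abs_le.1 (hall i)).2⟩
  refine (measure_mono hsub2).trans (le_of_eq ?_)
  rw [Real.volume_Icc_pi]
  simp only [Finset.prod_const, Finset.card_univ, Fintype.card_fin]
  congr 2
  ring

/-- V2 -/
theorem vol_box_simplex : volume {v : Fin 5 → ℝ | v 0 ∈ Set.Icc (-1) 1 ∧ v 1 ∈ Set.Icc (-1) 1 ∧
    0 ≤ v 2 ∧ 0 ≤ v 3 ∧ 0 ≤ v 4 ∧ v 2 + v 3 + v 4 ≤ 1} ≤ ENNReal.ofReal (2 / 3) := by
  set S : Set (Fin 5 → ℝ) := {v : Fin 5 → ℝ | v 0 ∈ Set.Icc (-1) 1 ∧ v 1 ∈ Set.Icc (-1) 1 ∧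
    0 ≤ v 2 ∧ 0 ≤ v 3 ∧ 0 ≤ v 4 ∧ v 2 + v 3 + v 4 ≤ 1} with hS
  have hconsc : ∀ (k : ℕ) (a : ℝ), Continuous (fun y : Fin k → ℝ => (Fin.cons a y : Fin (k + 1) → ℝ)) := by
    intro k a
    apply continuous_pi
    intro i
    refine Fin.cases ?_ (fun j => ?_) i
    · simp only [Fin.cons_zero]; exact continuous_const
    · simp only [Fin.cons_succ]; exact continuous_apply j
  have hmS : MeasurableSet S := by
    have hc : IsClosed S := by
      have e : S = {v : Fin 5 → ℝ | v 0 ∈ Set.Icc (-1) 1} ∩ ({v : Fin 5 → ℝ | v 1 ∈ Set.Icc (-1) 1} ∩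
          ({v : Fin 5 → ℝ | 0 ≤ v 2} ∩ ({v : Fin 5 → ℝ | 0 ≤ v 3} ∩ ({v : Fin 5 → ℝ | 0 ≤ v 4} ∩
          {v : Fin 5 → ℝ | v 2 + v 3 + v 4 ≤ 1})))) := rfl
      rw [e]
      refine (isClosed_Icc.preimage (continuous_apply 0)).inter
        ((isClosed_Icc.preimage (continuous_apply 1)).inter ?_)
      refine (isClosed_le continuous_const (continuous_apply 2)).inter
        ((isClosed_le continuous_const (continuous_apply 3)).inter
        ((isClosed_le continuous_const (continuous_apply 4)).inter ?_))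
      exact isClosed_le (by fun_prop) continuous_const
    exact hc.measurableSet
  -- innermost: fix a b x y
  have hin : ∀ a b x y : ℝ, volume {z : Fin 1 → ℝ |
      (Fin.cons a (Fin.cons b (Fin.cons x (Fin.cons y z : Fin 2 → ℝ) : Fin 3 → ℝ) : Fin 4 → ℝ)
        : Fin 5 → ℝ) ∈ S}
      ≤ (Icc (-1 : ℝ) 1).indicator (fun _ => (Icc (-1 : ℝ) 1).indicator (fun _ =>
        (Ici (0 : ℝ)).indicator (fun x => (Ici (0 : ℝ)).indicator
          (fun y => ENNReal.ofReal (1 - x - y) ^ 1) y) x) b) a := by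
    intro a b x y
    by_cases h : a ∈ Icc (-1 : ℝ) 1 ∧ b ∈ Icc (-1 : ℝ) 1 ∧ x ∈ Ici (0 : ℝ) ∧ y ∈ Ici (0 : ℝ)
    · obtain ⟨ha, hb, hx, hy⟩ := h
      rw [indicator_of_mem ha, indicator_of_mem hb, indicator_of_mem hx, indicator_of_mem hy]
      have hsub : {z : Fin 1 → ℝ |
          (Fin.cons a (Fin.cons b (Fin.cons x (Fin.cons y z : Fin 2 → ℝ) : Fin 3 → ℝ) : Fin 4 → ℝ)
            : Fin 5 → ℝ) ∈ S} ⊆ Icc (fun _ => 0) (fun _ => 1 - x - y) := by
        intro z hz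
        have hz' : a ∈ Set.Icc (-1) 1 ∧ b ∈ Set.Icc (-1) 1 ∧ 0 ≤ x ∧ 0 ≤ y ∧ 0 ≤ z 0 ∧
          x + y + z 0 ≤ 1 := hz
        constructor
        · intro i; rw [Subsingleton.elim i 0]; exact hz'.2.2.2.2.1
        · intro i; rw [Subsingleton.elim i 0]; have := hz'.2.2.2.2.2; simp only; linarith
      refine (measure_mono hsub).trans (le_of_eq ?_)
      rw [Real.volume_Icc_pi]
      simp
    · have hempty : {z : Fin 1 → ℝ |
          (Fin.cons a (Fin.cons b (Fin.cons x (Fin.cons y z : Fin 2 → ℝ) : Fin 3 → ℝ) : Fin 4 → ℝ)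
            : Fin 5 → ℝ) ∈ S} = ∅ := by
        rw [Set.eq_empty_iff_forall_notMem]
        intro z hz
        have hz' : a ∈ Set.Icc (-1) 1 ∧ b ∈ Set.Icc (-1) 1 ∧ 0 ≤ x ∧ 0 ≤ y ∧ 0 ≤ z 0 ∧
          x + y + z 0 ≤ 1 := hz
        exact h ⟨hz'.1, hz'.2.1, hz'.2.2.1, hz'.2.2.2.1⟩
      rw [hempty, measure_empty]
      exact zero_le
  have hm1 : ∀ a : ℝ, MeasurableSet {y : Fin 4 → ℝ | (Fin.cons a y : Fin 5 → ℝ) ∈ S} :=
    fun a => (hconsc 4 a).measurable hmS
  have hm2 : ∀ a b : ℝ, MeasurableSet {y : Fin 3 → ℝ | (Fin.cons a (Fin.cons b y : Fin 4 → ℝ) : Fin 5 → ℝ) ∈ S} :=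
    fun a b => (hconsc 3 b).measurable (hm1 a)
  have hm3 : ∀ a b c : ℝ, MeasurableSet {y : Fin 2 → ℝ |
      (Fin.cons a (Fin.cons b (Fin.cons c y : Fin 3 → ℝ) : Fin 4 → ℝ) : Fin 5 → ℝ) ∈ S} :=
    fun a b c => (hconsc 2 c).measurable (hm2 a b)
  have e1 : volume S = ∫⁻ a : ℝ, ∫⁻ b : ℝ, ∫⁻ x : ℝ, ∫⁻ y : ℝ, volume {z : Fin 1 → ℝ |
      (Fin.cons a (Fin.cons b (Fin.cons x (Fin.cons y z : Fin 2 → ℝ) : Fin 3 → ℝ) : Fin 4 → ℝ)
        : Fin 5 → ℝ) ∈ S} := by
    rw [volume_cons S hmS]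
    apply lintegral_congr; intro a
    rw [volume_cons _ (hm1 a)]
    apply lintegral_congr; intro b
    have := volume_cons _ (hm2 a b)
    refine Eq.trans this ?_
    apply lintegral_congr; intro c
    exact volume_cons _ (hm3 a b c)
  rw [e1]
  refine le_trans (lintegral_mono fun a => lintegral_mono fun b => lintegral_mono fun x =>
    lintegral_mono fun y => hin a b x y) ?_
  have hI : ∫⁻ x : ℝ, ∫⁻ y : ℝ, (Ici (0 : ℝ)).indicator (fun x => (Ici (0 : ℝ)).indicator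
          (fun y => ENNReal.ofReal (1 - x - y) ^ 1) y) x = ENNReal.ofReal (1 / 6) := by
    have h1 : ∀ a : ℝ, ∫⁻ b : ℝ, (Ici (0 : ℝ)).indicator (fun a => (Ici (0 : ℝ)).indicator
          (fun b => ENNReal.ofReal (1 - a - b) ^ 1) b) a
        = (Ici (0 : ℝ)).indicator (fun a => ∫⁻ b in Ici (0 : ℝ), ENNReal.ofReal (1 - a - b) ^ 1) a := by
      intro a
      by_cases ha : a ∈ Ici (0 : ℝ)
      · simp only [indicator_of_mem ha]
        rw [lintegral_indicator measurableSet_Ici]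
      · simp only [indicator_of_notMem ha, lintegral_zero]
    simp only [h1]
    rw [lintegral_indicator measurableSet_Ici, int2 (by norm_num)]
    rw [ENNReal.ofReal_one, one_pow, one_mul, ← ENNReal.ofReal_mul (by norm_num)]
    norm_num
  have hB : ∀ a b : ℝ, ∫⁻ x : ℝ, ∫⁻ y : ℝ, (Icc (-1 : ℝ) 1).indicator (fun _ =>
      (Icc (-1 : ℝ) 1).indicator (fun _ =>
        (Ici (0 : ℝ)).indicator (fun x => (Ici (0 : ℝ)).indicator
          (fun y => ENNReal.ofReal (1 - x - y) ^ 1) y) x) b) a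
      = (Icc (-1 : ℝ) 1).indicator (fun _ => (Icc (-1 : ℝ) 1).indicator (fun _ =>
        ENNReal.ofReal (1 / 6)) b) a := by
    intro a b
    by_cases ha : a ∈ Icc (-1 : ℝ) 1
    · by_cases hb : b ∈ Icc (-1 : ℝ) 1
      · simp only [indicator_of_mem ha, indicator_of_mem hb]; exact hI
      · simp only [indicator_of_mem ha, indicator_of_notMem hb, lintegral_zero]
    · simp only [indicator_of_notMem ha, lintegral_zero]
  simp only [hB]
  have hC : ∀ a : ℝ, ∫⁻ b : ℝ, (Icc (-1 : ℝ) 1).indicator (fun _ => (Icc (-1 : ℝ) 1).indicator (fun _ =>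
        ENNReal.ofReal (1 / 6)) b) a
      = (Icc (-1 : ℝ) 1).indicator (fun _ => ENNReal.ofReal (1 / 6) * ENNReal.ofReal 2) a := by
    intro a
    by_cases ha : a ∈ Icc (-1 : ℝ) 1
    · simp only [indicator_of_mem ha]
      rw [lintegral_indicator measurableSet_Icc, setLIntegral_const, Real.volume_Icc]
      norm_num
    · simp only [indicator_of_notMem ha, lintegral_zero]
  simp only [hC]
  rw [lintegral_indicator measurableSet_Icc, setLIntegral_const, Real.volume_Icc,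
    ← ENNReal.ofReal_mul (by norm_num), ← ENNReal.ofReal_mul (by norm_num)]
  apply ENNReal.ofReal_le_ofReal
  norm_num

end Pool.Agent.Lib_helper91.RP
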